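import Pool.Agent.Helper10.FS.Lin
import Pool.Agent.Helper38.FS.Defs

/-! Project FS, glue: the average return probability `rp z t r` as the normalised trace of a power
of a positive semidefinite matrix; monotonicity in the time and in the set of generators. -/

set_option linter.unusedVariables false
set_option linter.unusedSectionVars false

namespace Pool.Agent.Helper3.FS

open Matrix Finset Equiv
open Pool.Agent.Helper10.FS
open Pool.Agent.Helper38.FS (rp)
open Pool.Agent.Helper3.AK (Alt lazyLaw)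

variable {n r k : ℕ}

/-- injective `r`-tuples -/
abbrev Tp (n r : ℕ) : Type := Fin r ↪ Fin n

/-- the permutation matrix of `g` on tuples: `(Pm g v) a = v (g ∘ a)` -/
noncomputable def Pm (g : Perm (Fin n)) : Matrix (Tp n r) (Tp n r) ℝ := by
  classical exact fun a b => if a.trans g.toEmbedding = b then 1 else 0

theorem Pm_mulVec (g : Perm (Fin n)) (v : Tp n r → ℝ) (a : Tp n r) :
    ((Pm g : Matrix (Tp n r) (Tp n r) ℝ) *ᵥ v) a = v (a.trans g.toEmbedding) := by
  classical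
  simp [Pm, Matrix.mulVec, dotProduct]

theorem trans_mul (a : Tp n r) (g h : Perm (Fin n)) :
    (a.trans g.toEmbedding).trans h.toEmbedding = a.trans (h * g).toEmbedding := by
  ext i; rfl

/-- action on tuples as a permutation -/
def tperm (g : Perm (Fin n)) : Perm (Tp n r) where
  toFun a := a.trans g.toEmbedding
  invFun a := a.trans (g⁻¹ : Perm (Fin n)).toEmbedding
  left_inv a := by ext i; simp
  right_inv a := by ext i; simp

theorem Pm_mul (g h : Perm (Fin n)) :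
    (Pm g : Matrix (Tp n r) (Tp n r) ℝ) * Pm h = Pm (h * g) := by
  classical
  ext a b
  rw [Matrix.mul_apply]
  simp only [Pm]
  rw [Finset.sum_eq_single (a.trans g.toEmbedding)]
  · rw [if_pos rfl, one_mul, trans_mul]
  · intro c _ hc
    rw [if_neg (Ne.symm hc), zero_mul]
  · intro h'
    exact absurd (mem_univ _) h'

theorem Pm_one : (Pm (1 : Perm (Fin n)) : Matrix (Tp n r) (Tp n r) ℝ) = 1 := by
  classical
  ext a b
  simp only [Pm, Matrix.one_apply]
  have : a.trans (1 : Perm (Fin n)).toEmbedding = a := by ext i; rfl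
  rw [this]

theorem Pm_transpose (g : Perm (Fin n)) :
    (Pm g : Matrix (Tp n r) (Tp n r) ℝ)ᵀ = Pm g⁻¹ := by
  classical
  ext a b
  rw [Matrix.transpose_apply]
  simp only [Pm]
  have : (b.trans g.toEmbedding = a) ↔ (a.trans (g⁻¹ : Perm (Fin n)).toEmbedding = b) := by
    constructor
    · rintro rfl
      ext i; simp
    · rintro rfl
      ext i; simp
  simp only [this]

theorem trace_Pm (g : Perm (Fin n)) : (Pm g : Matrix (Tp n r) (Tp n r) ℝ).trace =
    (((univ.filter fun x => g x = x).card.descFactorial r : ℕ) : ℝ) := by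
  classical
  have h1 : (Pm g : Matrix (Tp n r) (Tp n r) ℝ).trace =
      ((univ.filter fun a : Tp n r => a.trans g.toEmbedding = a).card : ℝ) := by
    rw [Matrix.trace, Finset.card_filter]
    push_cast
    refine Finset.sum_congr rfl fun a _ => ?_
    simp [Pm, Matrix.diag]
  rw [h1]
  have h2 : (univ.filter fun a : Tp n r => a.trans g.toEmbedding = a).card =
      Fintype.card (Fin r ↪ {x : Fin n // g x = x}) := by
    rw [← Fintype.card_subtype]
    refine Fintype.card_congr ⟨fun a => ⟨fun i => ⟨a.1 i, by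
      have := congrArg (fun e : Tp n r => e i) a.2
      simpa using this⟩, fun i j h => a.1.injective (by simpa using h)⟩,
      fun e => ⟨⟨fun i => (e i).1, fun i j h => e.injective (Subtype.ext h)⟩, by
        ext i
        have := (e i).2
        simpa using congrArg Fin.val this⟩, ?_, ?_⟩
    · intro a; ext i; rfl
    · intro e; ext i; rfl
  rw [h2, Fintype.card_embedding_eq, Fintype.card_fin, Fintype.card_subtype]

/-- the average of the permutation matrices -/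
noncomputable def Mk (κ : Perm (Fin n) → ℝ) : Matrix (Tp n r) (Tp n r) ℝ := ∑ g, κ g • Pm g

/-- the lazy step -/
noncomputable def Lm (z : Fin k → Alt n) : Matrix (Tp n r) (Tp n r) ℝ :=
  (1 / 2 : ℝ) • 1 + (4 * (k : ℝ))⁻¹ • ∑ i, (Pm (z i : Perm (Fin n)) + Pm ((z i : Perm (Fin n))⁻¹))

theorem Mk_step (z : Fin k → Alt n) (t : ℕ) :
    (Mk (lazyLaw z (t + 1)) : Matrix (Tp n r) (Tp n r) ℝ) = Lm z * Mk (lazyLaw z t) := by
  have h1 : ∀ u : Perm (Fin n), ∑ g, lazyLaw z t (g * u⁻¹) • (Pm g : Matrix (Tp n r) (Tp n r) ℝ) =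
      Pm u * Mk (lazyLaw z t) := by
    intro u
    unfold Mk
    rw [Finset.mul_sum, ← Equiv.sum_comp (Equiv.mulRight u)]
    refine Finset.sum_congr rfl fun g _ => ?_
    rw [Matrix.mul_smul, Pm_mul]
    simp
  have h2 : (Mk (lazyLaw z (t + 1)) : Matrix (Tp n r) (Tp n r) ℝ) =
      (1 / 2 : ℝ) • Mk (lazyLaw z t) + (4 * (k : ℝ))⁻¹ • ∑ i,
        (Pm (z i : Perm (Fin n)) * Mk (lazyLaw z t) +
          Pm ((z i : Perm (Fin n))⁻¹) * Mk (lazyLaw z t)) := by
    have h3 : ∀ i, (Pm (z i : Perm (Fin n)) * Mk (lazyLaw z t) +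
          Pm ((z i : Perm (Fin n))⁻¹) * Mk (lazyLaw z t) : Matrix (Tp n r) (Tp n r) ℝ) =
        ∑ g, (lazyLaw z t (g * (z i : Perm (Fin n))⁻¹) + lazyLaw z t (g * (z i : Perm (Fin n)))) •
          Pm g := by
      intro i
      rw [← h1, ← h1, inv_inv, ← Finset.sum_add_distrib]
      refine Finset.sum_congr rfl fun g _ => ?_
      rw [← add_smul]
    simp_rw [h3]
    rw [Finset.sum_comm]
    unfold Mk
    rw [Finset.smul_sum, Finset.smul_sum, ← Finset.sum_add_distrib]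
    refine Finset.sum_congr rfl fun g _ => ?_
    rw [← Finset.sum_smul, smul_smul, smul_smul, ← add_smul]
    rfl
  rw [h2]
  unfold Lm
  rw [Matrix.add_mul, Matrix.smul_mul, Matrix.one_mul, Matrix.smul_mul, Finset.sum_mul]
  simp_rw [Matrix.add_mul]

theorem Mk_lazy (z : Fin k → Alt n) (t : ℕ) :
    (Mk (lazyLaw z t) : Matrix (Tp n r) (Tp n r) ℝ) = Lm z ^ t := by
  induction t with
  | zero =>
    rw [pow_zero]
    unfold Mk
    rw [Finset.sum_eq_single 1]
    · simp [lazyLaw, Pm_one]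
    · intro g _ hg
      simp [lazyLaw, hg]
    · intro h
      exact absurd (mem_univ _) h
  | succ t ih => rw [Mk_step, ih, pow_succ']

theorem rp_eq (z : Fin k → Alt n) (t r : ℕ) : rp z t r =
    ((Lm z : Matrix (Tp n r) (Tp n r) ℝ) ^ t).trace / (n.descFactorial r : ℝ) := by
  rw [← Mk_lazy]
  unfold rp Mk
  rw [Matrix.trace_sum, Finset.sum_div]
  refine Finset.sum_congr rfl fun g _ => ?_
  rw [Matrix.trace_smul, trace_Pm, smul_eq_mul, mul_div_assoc]

theorem dot_comp_perm (σ : Perm (Tp n r)) (v : Tp n r → ℝ) :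
    ∑ a, v (σ a) ^ 2 = v ⬝ᵥ v := by
  rw [Equiv.sum_comp σ (fun a => v a ^ 2)]
  simp only [dotProduct, pow_two]

theorem qf_Pm_abs (g : Perm (Fin n)) (v : Tp n r → ℝ) : |qf (Pm g) v| ≤ v ⬝ᵥ v := by
  have h1 : qf (Pm g) v = ∑ a, v a * v (tperm g a) := by
    unfold qf dotProduct
    refine Finset.sum_congr rfl fun a _ => ?_
    rw [Pm_mulVec]
    rfl
  have h2 := dot_comp_perm (tperm g) v
  have h3 : v ⬝ᵥ v = ∑ a, v a ^ 2 := by simp only [dotProduct, pow_two]
  rw [h1, abs_le]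
  constructor
  · have : 0 ≤ ∑ a, (v a + v (tperm g a)) ^ 2 := Finset.sum_nonneg fun a _ => sq_nonneg _
    have h4 : ∑ a, (v a + v (tperm g a)) ^ 2 =
        v ⬝ᵥ v + 2 * ∑ a, v a * v (tperm g a) + v ⬝ᵥ v := by
      conv_rhs => rw [← h2]
      rw [h2, h3, Finset.mul_sum, ← Finset.sum_add_distrib]
      have h5 : ∑ a, v a ^ 2 = ∑ a, v (tperm g a) ^ 2 := by rw [h2, h3]
      conv_rhs => rhs; rw [h5]
      rw [← Finset.sum_add_distrib]
      exact Finset.sum_congr rfl fun a _ => by ring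
    linarith
  · have : 0 ≤ ∑ a, (v a - v (tperm g a)) ^ 2 := Finset.sum_nonneg fun a _ => sq_nonneg _
    have h4 : ∑ a, (v a - v (tperm g a)) ^ 2 =
        v ⬝ᵥ v - 2 * ∑ a, v a * v (tperm g a) + v ⬝ᵥ v := by
      rw [h3, Finset.mul_sum, ← Finset.sum_sub_distrib]
      have h5 : ∑ a, v a ^ 2 = ∑ a, v (tperm g a) ^ 2 := by rw [h2, h3]
      conv_rhs => rhs; rw [h5]
      rw [← Finset.sum_add_distrib]
      exact Finset.sum_congr rfl fun a _ => by ring
    linarith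

theorem qf_Lm (z : Fin k → Alt n) (v : Tp n r → ℝ) : qf (Lm z) v =
    (1 / 2 : ℝ) * (v ⬝ᵥ v) + (4 * (k : ℝ))⁻¹ * ∑ i, (qf (Pm (z i : Perm (Fin n))) v +
      qf (Pm ((z i : Perm (Fin n))⁻¹)) v) := by
  unfold Lm
  rw [qf_add, qf_smul, qf_one, qf_smul, qf_sum]
  congr 2
  exact Finset.sum_congr rfl fun i _ => by rw [qf_add]

theorem Lm_sym (z : Fin k → Alt n) : (Lm z : Matrix (Tp n r) (Tp n r) ℝ)ᵀ = Lm z := by
  unfold Lm
  rw [Matrix.transpose_add, Matrix.transpose_smul, Matrix.transpose_one, Matrix.transpose_smul,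
    Matrix.transpose_sum]
  congr 2
  refine Finset.sum_congr rfl fun i _ => ?_
  rw [Matrix.transpose_add, Pm_transpose, Pm_transpose, inv_inv, add_comm]

theorem Lm_psd (z : Fin k → Alt n) : Psd (Lm z : Matrix (Tp n r) (Tp n r) ℝ) := by
  refine ⟨Lm_sym z, fun v => ?_⟩
  rw [qf_Lm]
  have hv := dot_self_nonneg v
  rcases Nat.eq_zero_or_pos k with hk | hk
  · subst hk
    simp
    positivity
  have hk' : (0 : ℝ) < k := by exact_mod_cast hk
  have h1 : -(2 * (k : ℝ) * (v ⬝ᵥ v)) ≤ ∑ i, (qf (Pm (z i : Perm (Fin n))) v +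
      qf (Pm ((z i : Perm (Fin n))⁻¹)) v) := by
    have : ∑ i : Fin k, (-(2 * (v ⬝ᵥ v))) ≤ ∑ i, (qf (Pm (z i : Perm (Fin n))) v +
      qf (Pm ((z i : Perm (Fin n))⁻¹)) v) := by
      refine Finset.sum_le_sum fun i _ => ?_
      have a1 := (abs_le.1 (qf_Pm_abs (z i : Perm (Fin n)) v)).1
      have a2 := (abs_le.1 (qf_Pm_abs ((z i : Perm (Fin n))⁻¹) v)).1
      linarith
    rw [Finset.sum_const, Finset.card_univ, Fintype.card_fin, nsmul_eq_mul] at this
    linarith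
  have h2 : (4 * (k : ℝ))⁻¹ * (-(2 * (k : ℝ) * (v ⬝ᵥ v))) ≤ (4 * (k : ℝ))⁻¹ *
      ∑ i, (qf (Pm (z i : Perm (Fin n))) v + qf (Pm ((z i : Perm (Fin n))⁻¹)) v) :=
    mul_le_mul_of_nonneg_left h1 (by positivity)
  have h3 : (4 * (k : ℝ))⁻¹ * (-(2 * (k : ℝ) * (v ⬝ᵥ v))) = -(1 / 2 * (v ⬝ᵥ v)) := by
    field_simp; ring
  linarith

theorem Lm_le_one (z : Fin k → Alt n) (v : Tp n r → ℝ) : qf (Lm z) v ≤ v ⬝ᵥ v := by
  rw [qf_Lm]
  have hv := dot_self_nonneg v
  rcases Nat.eq_zero_or_pos k with hk | hk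
  · subst hk
    simp
    linarith
  have hk' : (0 : ℝ) < k := by exact_mod_cast hk
  have h1 : ∑ i, (qf (Pm (z i : Perm (Fin n))) v +
      qf (Pm ((z i : Perm (Fin n))⁻¹)) v) ≤ 2 * (k : ℝ) * (v ⬝ᵥ v) := by
    have : ∑ i, (qf (Pm (z i : Perm (Fin n))) v +
      qf (Pm ((z i : Perm (Fin n))⁻¹)) v) ≤ ∑ i : Fin k, (2 * (v ⬝ᵥ v)) := by
      refine Finset.sum_le_sum fun i _ => ?_
      have a1 := (abs_le.1 (qf_Pm_abs (z i : Perm (Fin n)) v)).2
      have a2 := (abs_le.1 (qf_Pm_abs ((z i : Perm (Fin n))⁻¹) v)).2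
      linarith
    rw [Finset.sum_const, Finset.card_univ, Fintype.card_fin, nsmul_eq_mul] at this
    linarith
  have h2 : (4 * (k : ℝ))⁻¹ *
      ∑ i, (qf (Pm (z i : Perm (Fin n))) v + qf (Pm ((z i : Perm (Fin n))⁻¹)) v) ≤
      (4 * (k : ℝ))⁻¹ * (2 * (k : ℝ) * (v ⬝ᵥ v)) :=
    mul_le_mul_of_nonneg_left h1 (by positivity)
  have h3 : (4 * (k : ℝ))⁻¹ * (2 * (k : ℝ) * (v ⬝ᵥ v)) = 1 / 2 * (v ⬝ᵥ v) := by
    field_simp; ring
  linarith

/-- the spectrum of the lazy step -/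
theorem Lm_spec (z : Fin k → Alt n) : ∃ d : Tp n r → ℝ, (∀ i, 0 ≤ d i ∧ d i ≤ 1) ∧
    (∀ t : ℕ, ((Lm z : Matrix (Tp n r) (Tp n r) ℝ) ^ t).trace = ∑ i, d i ^ t) ∧
    ∀ (a : ℝ) (t : ℕ), ((a • Lm z + (1 - a) • (1 : Matrix (Tp n r) (Tp n r) ℝ)) ^ t).trace =
      ∑ i, (a * d i + (1 - a)) ^ t := by
  obtain ⟨U, d, h1, h2, h3, h4⟩ := spec_psd (Lm_psd z : Psd (Lm z : Matrix (Tp n r) (Tp n r) ℝ))
  refine ⟨d, fun i => ⟨h4 i, ?_⟩, fun t => ?_, fun a t => ?_⟩
  · have e1 : Pool.Agent.Helper10.FS.col U i ⬝ᵥ Pool.Agent.Helper10.FS.col U i = 1 := by rw [col_col h1, if_pos rfl]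
    have e2 : qf (Lm z) (Pool.Agent.Helper10.FS.col U i) = d i := by rw [h3, qf_col h1]
    rw [← e2, ← e1]
    exact Lm_le_one z _
  · rw [h3, pow_udu h1 h2, trace_udu h1]
  · have h5 : a • Lm z + (1 - a) • (1 : Matrix (Tp n r) (Tp n r) ℝ) =
        U * diagonal (fun i => a * d i + (1 - a)) * Uᵀ := by
      have h6 : diagonal (fun i => a * d i + (1 - a)) =
          a • diagonal d + (1 - a) • (1 : Matrix (Tp n r) (Tp n r) ℝ) := by
        ext i j
        by_cases hij : i = j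
        · subst hij; simp
        · simp [hij]
      rw [h6, Matrix.mul_add, Matrix.add_mul, Matrix.mul_smul, Matrix.smul_mul, Matrix.mul_smul,
        Matrix.smul_mul, Matrix.mul_one, h2, ← h3]
    rw [h5, pow_udu h1 h2, trace_udu h1]

theorem rp_nonneg (z : Fin k → Alt n) (t r : ℕ) : 0 ≤ rp z t r := by
  rw [rp_eq]
  obtain ⟨d, h1, h2, -⟩ := Lm_spec (r := r) z
  rw [h2]
  exact div_nonneg (Finset.sum_nonneg fun i _ => pow_nonneg (h1 i).1 t) (Nat.cast_nonneg _)

/-- **(g1)** monotonicity in the time -/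
theorem rp_anti (z : Fin k → Alt n) {t t' : ℕ} (h : t ≤ t') (r : ℕ) : rp z t' r ≤ rp z t r := by
  rw [rp_eq, rp_eq]
  obtain ⟨d, h1, h2, -⟩ := Lm_spec (r := r) z
  rw [h2, h2]
  refine div_le_div_of_nonneg_right ?_ (Nat.cast_nonneg _)
  exact Finset.sum_le_sum fun i _ => pow_le_pow_of_le_one (h1 i).1 (h1 i).2 h

theorem scalar_step {a d : ℝ} (ha : 0 ≤ a) (ha1 : a ≤ 1) (hd : 0 ≤ d) (hd1 : d ≤ 1) {N m : ℕ}
    (hm : 2 * (m : ℝ) ≤ a * N) : (a * d + (1 - a)) ^ N ≤ d ^ m + Real.exp (-(a * N / 2)) := by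
  have h0 : 0 ≤ a * d + (1 - a) := by nlinarith
  have h1 : a * d + (1 - a) ≤ Real.exp (-(a * (1 - d))) := by
    have := Real.add_one_le_exp (-(a * (1 - d)))
    linarith
  have h2 : (a * d + (1 - a)) ^ N ≤ Real.exp (-(a * N * (1 - d))) := by
    calc (a * d + (1 - a)) ^ N ≤ Real.exp (-(a * (1 - d))) ^ N := pow_le_pow_left₀ h0 h1 N
      _ = Real.exp (-(a * N * (1 - d))) := by
          rw [← Real.exp_nat_mul]; congr 1; ring
  rcases le_or_gt d (1 / 2) with h | h
  · refine h2.trans ?_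
    have h3 : Real.exp (-(a * N * (1 - d))) ≤ Real.exp (-(a * N / 2)) := by
      apply Real.exp_le_exp.2
      have : 0 ≤ a * N := by positivity
      nlinarith
    have h4 : 0 ≤ d ^ m := pow_nonneg hd m
    linarith
  · refine h2.trans ?_
    have h3 : Real.exp (-(2 * (1 - d))) ≤ d := by
      -- `1 ≤ d * exp (2 (1 - d))`
      have h4 : 1 + 2 * (1 - d) ≤ Real.exp (2 * (1 - d)) := by
        have := Real.add_one_le_exp (2 * (1 - d))
        linarith
      have h5 : 1 ≤ d * Real.exp (2 * (1 - d)) := by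
        have : d * (1 + 2 * (1 - d)) ≤ d * Real.exp (2 * (1 - d)) :=
          mul_le_mul_of_nonneg_left h4 hd
        nlinarith
      rw [Real.exp_neg]
      rw [inv_le_iff_one_le_mul₀ (Real.exp_pos _)]
      linarith
    have h6 : Real.exp (-(a * N * (1 - d))) ≤ d ^ m := by
      calc Real.exp (-(a * N * (1 - d))) ≤ Real.exp (-(2 * m * (1 - d))) := by
            apply Real.exp_le_exp.2
            have : 2 * m * (1 - d) ≤ a * N * (1 - d) :=
              mul_le_mul_of_nonneg_right hm (by linarith)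
            linarith
        _ = Real.exp (-(2 * (1 - d))) ^ m := by
            rw [← Real.exp_nat_mul]; congr 1; ring
        _ ≤ d ^ m := pow_le_pow_left₀ (Real.exp_pos _).le h3 m
    have := Real.exp_pos (-(a * N / 2))
    linarith

/-- **(g2)** more generators -/
theorem rp_more {k' : ℕ} (hk : 1 ≤ k) (hkk : k ≤ k') (x : Fin k' → Alt n) (hrn : r ≤ n)
    {N m : ℕ} (hm : 2 * (m : ℝ) ≤ (k : ℝ) / k' * N) :
    rp x N r ≤ rp (fun i : Fin k => x (Fin.castLE hkk i)) m r +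
      Real.exp (-((k : ℝ) / k' * N / 2)) := by
  set z : Fin k → Alt n := fun i : Fin k => x (Fin.castLE hkk i) with hz
  have hk' : (0 : ℝ) < k := by exact_mod_cast hk
  have hk'' : (0 : ℝ) < k' := by
    have : 0 < k' := by omega
    exact_mod_cast this
  set a : ℝ := (k : ℝ) / k' with ha
  have ha0 : 0 ≤ a := by positivity
  have ha1 : a ≤ 1 := by
    rw [ha, div_le_one hk'']
    exact_mod_cast hkk
  have hdf : (0 : ℝ) < (n.descFactorial r : ℝ) := by
    exact_mod_cast Nat.descFactorial_pos.2 hrn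
  obtain ⟨d, h1, h2, h3⟩ := Lm_spec (r := r) z
  -- comparison of the quadratic forms
  have hle : ∀ v : Tp n r → ℝ, qf (Lm x) v ≤
      qf (a • Lm z + (1 - a) • (1 : Matrix (Tp n r) (Tp n r) ℝ)) v := by
    intro v
    rw [qf_add, qf_smul, qf_smul, qf_one, qf_Lm, qf_Lm]
    have hv := dot_self_nonneg v
    set q : Fin k' → ℝ := fun i => qf (Pm (x i : Perm (Fin n))) v +
      qf (Pm ((x i : Perm (Fin n))⁻¹)) v with hq
    have hq2 : ∀ i, q i ≤ 2 * (v ⬝ᵥ v) := by
      intro i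
      have a1 := (abs_le.1 (qf_Pm_abs (x i : Perm (Fin n)) v)).2
      have a2 := (abs_le.1 (qf_Pm_abs ((x i : Perm (Fin n))⁻¹) v)).2
      simp only [hq]
      linarith
    have hsum : ∑ i, q i ≤ ∑ i : Fin k, q (Fin.castLE hkk i) +
        (k' - k : ℝ) * (2 * (v ⬝ᵥ v)) := by
      obtain ⟨m', rfl⟩ := Nat.exists_eq_add_of_le hkk
      rw [Fin.sum_univ_add]
      have e1 : ∑ i : Fin k, q (Fin.castAdd m' i) = ∑ i : Fin k, q (Fin.castLE hkk i) :=
        Finset.sum_congr rfl fun i _ => rfl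
      rw [e1]
      have e2 : ∑ i : Fin m', q (Fin.natAdd k i) ≤ ∑ i : Fin m', 2 * (v ⬝ᵥ v) :=
        Finset.sum_le_sum fun i _ => hq2 _
      rw [Finset.sum_const, Finset.card_univ, Fintype.card_fin, nsmul_eq_mul] at e2
      push_cast
      linarith
    have e3 : (4 * (k' : ℝ))⁻¹ * ∑ i, q i ≤ (4 * (k' : ℝ))⁻¹ *
        (∑ i : Fin k, q (Fin.castLE hkk i) + (k' - k : ℝ) * (2 * (v ⬝ᵥ v))) :=
      mul_le_mul_of_nonneg_left hsum (by positivity)
    have e4 : (4 * (k' : ℝ))⁻¹ *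
        (∑ i : Fin k, q (Fin.castLE hkk i) + (k' - k : ℝ) * (2 * (v ⬝ᵥ v))) =
        a * ((4 * (k : ℝ))⁻¹ * ∑ i : Fin k, q (Fin.castLE hkk i)) +
          (1 - a) * (1 / 2 * (v ⬝ᵥ v)) := by
      rw [ha]; field_simp; ring
    have e5 : ∑ i : Fin k, q (Fin.castLE hkk i) = ∑ i, (qf (Pm (z i : Perm (Fin n))) v +
      qf (Pm ((z i : Perm (Fin n))⁻¹)) v) := rfl
    rw [e4, e5] at e3
    simp only [hq] at e3
    linarith
  have hpsd : Psd (a • Lm z + (1 - a) • (1 : Matrix (Tp n r) (Tp n r) ℝ)) := by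
    refine ⟨?_, fun v => ?_⟩
    · rw [Matrix.transpose_add, Matrix.transpose_smul, Matrix.transpose_smul, Lm_sym,
        Matrix.transpose_one]
    · exact (Lm_psd x).2 v |>.trans (hle v)
  have htr := trace_pow_mono hpsd (Lm_psd x) hle N
  rw [rp_eq, rp_eq, h2]
  rw [h3] at htr
  rw [div_add' _ _ _ hdf.ne']
  refine div_le_div_of_nonneg_right (htr.trans ?_) hdf.le
  calc ∑ i, (a * d i + (1 - a)) ^ N ≤ ∑ i, (d i ^ m + Real.exp (-(a * N / 2))) :=
        Finset.sum_le_sum fun i _ => scalar_step ha0 ha1 (h1 i).1 (h1 i).2 hm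
    _ = ∑ i, d i ^ m + Real.exp (-(a * N / 2)) * (n.descFactorial r : ℝ) := by
        rw [Finset.sum_add_distrib, Finset.sum_const, Finset.card_univ, nsmul_eq_mul,
          Fintype.card_embedding_eq, Fintype.card_fin, Fintype.card_fin]
        ring

end Pool.Agent.Helper3.FS
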