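import Pool.Agent.Helper3.FS.End
import Pool.Agent.Helper6.NX.Final

/-! Project FS: (X') implies a constant gap for every large fixed number of generators,
unconditionally. -/

namespace Pool.Agent.Helper3.FS

open Pool.Agent.Helper6.NX

/-- **END**: (X') with probability tending to one implies the theorem. -/
theorem end_main : S_XP → S_END :=
  end_of_xp (spec f_MX f_PAIRB f_IS2 f_KEY f_F1 f_F2 f_F3 f_IT) f_LT f_TOPZ f_SUBT f_CHN

end Pool.Agent.Helper3.FS
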