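import Pool.Agent.Helper3.FS.Rp
import Pool.Agent.Helper3.FS.EndMain

/-! Project FS (MP_75608d_al), glue: bounds for the average return probability `rp` of the lazy
walk on `s`-tuples at time `2 ⌈C s log n⌉`, for dyadic `s` in several ranges, imply (X'), hence
the theorem (`end_main`).

`PRT z C ξ lo hi`: for all dyadic `s = 2 ^ j` with `lo ≤ s ≤ hi`,
`rp z (2 ⌈C s log n⌉) s ≤ n ^ (-(ξ s))`.

* `part_union : S_PART lo mid → S_PART mid hi → S_PART lo hi` (any numbers of generators);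
* `part_of_exc : S_EXC lo hi → S_PART lo hi` (one stage: few bad new generators per level);
* `part_of_avg : S_AVG lo hi → S_PART lo hi` (one stage: averages over the new generators);
* `xp_of_part : β < 1 → 0 < κ → S_PART (n ^ β) (κ n) → S_XP`;
* `end_of_part : ... → S_END`. -/

set_option linter.unusedVariables false

namespace Pool.Agent.Helper3.FS

open Matrix Equiv Filter Topology Pool.Agent.Helper6.NX
open Pool.Agent.Helper38.FS (rp)
open Pool.Agent.Helper3.AK (Alt lazyLaw)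
open Pool.Agent.Helper15.An (fixc)

/-- the bound for the dyadic levels in `[lo, hi]` -/
def PRT {n k : ℕ} (z : Fin k → Alt n) (C ξ lo hi : ℝ) : Prop :=
  ∀ j : ℕ, lo ≤ (2 : ℝ) ^ j → (2 : ℝ) ^ j ≤ hi →
    rp z (2 * ⌈C * 2 ^ j * Real.log n⌉₊) (2 ^ j) ≤ (n : ℝ) ^ (-(ξ * 2 ^ j))

/-- the bounds for the levels in `[lo n, hi n]` hold with probability tending to one -/
def S_PART (lo hi : ℕ → ℝ) : Prop := ∃ (k : ℕ) (C ξ : ℝ), 1 ≤ k ∧ 0 < C ∧ 0 < ξ ∧
  Tendsto (fun n : ℕ => (Nat.card {z : Fin k → Alt n // PRT z C ξ (lo n) (hi n)} : ℝ) /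
    Nat.card (Fin k → Alt n)) atTop (𝓝 1)

/-- one stage, form with exceptional sets: for most `z : Fin k → Alt n` and every dyadic level in
`[lo n, hi n]` at most `δ n |A_n|^q` of the `y : Fin q → Alt n` are bad for `(z, y)` -/
def S_EXC (lo hi : ℕ → ℝ) : Prop := ∃ (k q : ℕ) (C ξ : ℝ) (δ : ℕ → ℝ), 1 ≤ k ∧ 0 < C ∧ 0 < ξ ∧
  Tendsto (fun n : ℕ => δ n * Real.log n) atTop (𝓝 0) ∧
  Tendsto (fun n : ℕ => (Nat.card {z : Fin k → Alt n //
    ∀ j : ℕ, lo n ≤ (2 : ℝ) ^ j → (2 : ℝ) ^ j ≤ hi n → 2 ^ j ≤ n →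
      (Nat.card {y : Fin q → Alt n // (n : ℝ) ^ (-(ξ * 2 ^ j)) <
        rp (Fin.append z y) (2 * ⌈C * 2 ^ j * Real.log n⌉₊) (2 ^ j)} : ℝ) ≤
        δ n * (Fintype.card (Alt n) : ℝ) ^ q} : ℝ) / Nat.card (Fin k → Alt n)) atTop (𝓝 1)

/-- one stage, form with averages over the new generators -/
def S_AVG (lo hi : ℕ → ℝ) : Prop := ∃ (k q : ℕ) (C ξ : ℝ), 1 ≤ k ∧ 0 < C ∧ 0 < ξ ∧
  Tendsto (fun n : ℕ => (Nat.card {z : Fin k → Alt n //
    ∀ j : ℕ, lo n ≤ (2 : ℝ) ^ j → (2 : ℝ) ^ j ≤ hi n → 2 ^ j ≤ n →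
      ∑ y : Fin q → Alt n, rp (Fin.append z y) (2 * ⌈C * 2 ^ j * Real.log n⌉₊) (2 ^ j) ≤
        (n : ℝ) ^ (-(ξ * 2 ^ j)) * (Fintype.card (Alt n) : ℝ) ^ q} : ℝ) /
      Nat.card (Fin k → Alt n)) atTop (𝓝 1)

/-! ### Elementary facts -/

theorem rp_zero_of_lt {n k : ℕ} (z : Fin k → Alt n) (t : ℕ) {r : ℕ} (h : n < r) :
    rp z t r = 0 := by
  unfold Pool.Agent.Helper38.FS.rp
  refine Finset.sum_eq_zero fun g _ => ?_
  rw [Nat.descFactorial_eq_zero_iff_lt.2 h]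
  simp

theorem prt_mono {n k : ℕ} (hn : 1 ≤ n) {z : Fin k → Alt n} {C C' ξ ξ' lo hi : ℝ}
    (hC : C ≤ C') (hξ : ξ' ≤ ξ) (h : PRT z C ξ lo hi) : PRT z C' ξ' lo hi := by
  intro j h1 h2
  have hn1 : (1 : ℝ) ≤ n := by exact_mod_cast hn
  have hl : 0 ≤ Real.log n := Real.log_nonneg hn1
  refine (rp_anti z ?_ (2 ^ j)).trans ((h j h1 h2).trans ?_)
  · refine Nat.mul_le_mul_left 2 (Nat.ceil_mono ?_)
    have : (0 : ℝ) ≤ 2 ^ j * Real.log n := by positivity
    nlinarith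
  · refine Real.rpow_le_rpow_of_exponent_le hn1 ?_
    have : (0 : ℝ) ≤ 2 ^ j := by positivity
    nlinarith

theorem prt_union {n k : ℕ} {z : Fin k → Alt n} {C ξ lo mid hi : ℝ}
    (h1 : PRT z C ξ lo mid) (h2 : PRT z C ξ mid hi) : PRT z C ξ lo hi := by
  intro j h3 h4
  rcases le_total ((2 : ℝ) ^ j) mid with h | h
  · exact h1 j h3 h
  · exact h2 j h h4

/-- more generators -/
theorem prt_more {k k' : ℕ} (hk : 1 ≤ k) (hkk : k ≤ k') {C ξ : ℝ} (hC : 0 < C) (hξ : 0 < ξ) :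
    ∀ᶠ n : ℕ in atTop, ∀ (x : Fin k' → Alt n) (lo hi : ℝ),
      PRT (fun i : Fin k => x (Fin.castLE hkk i)) C ξ lo hi →
      PRT x ((k' : ℝ) / k * (2 * C + 2)) (min ξ 2 / 2) lo hi := by
  have hk0 : (0 : ℝ) < k := by exact_mod_cast hk
  have hk1 : (0 : ℝ) < k' := by
    have : 0 < k' := by omega
    exact_mod_cast this
  set η : ℝ := min ξ 2 / 2 with hη
  have hη0 : 0 < η := by positivity
  have hη1 : 2 * η ≤ ξ := by rw [hη]; linarith [min_le_left ξ 2]
  have hη2 : 2 * η ≤ 2 := by rw [hη]; linarith [min_le_right ξ 2]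
  have hev : ∀ᶠ n : ℕ in atTop, (2 : ℝ) ≤ (n : ℝ) ^ η :=
    ((tendsto_rpow_atTop hη0).comp tendsto_natCast_atTop_atTop).eventually_ge_atTop 2
  filter_upwards [hev, eventually_ge_atTop 3] with n h2 hn3 x lo hi h j h3 h4
  have hn3' : (3 : ℝ) ≤ n := by exact_mod_cast hn3
  have hn0 : (0 : ℝ) < n := by linarith
  have hn1 : (1 : ℝ) ≤ n := by linarith
  have hlog : 1 ≤ Real.log n := by
    rw [Real.le_log_iff_exp_le hn0]
    have := Real.exp_one_lt_d9
    linarith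
  have hs1 : (1 : ℝ) ≤ 2 ^ j := one_le_pow₀ (by norm_num)
  set s : ℝ := 2 ^ j with hs
  have hsl : 1 ≤ s * Real.log n := by nlinarith
  rcases Nat.lt_or_ge n (2 ^ j) with h5 | h5
  · rw [rp_zero_of_lt x _ h5]
    positivity
  set C' : ℝ := (k' : ℝ) / k * (2 * C + 2) with hC'
  have e1 : (2 * C' * s * Real.log n : ℝ) ≤ ((2 * ⌈C' * s * Real.log n⌉₊ : ℕ) : ℝ) := by
    have := Nat.le_ceil (C' * s * Real.log n)
    push_cast
    linarith
  have e2 : (((2 * ⌈C * s * Real.log n⌉₊ : ℕ) : ℝ)) ≤ 2 * (C * s * Real.log n + 1) := by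
    have h0 : 0 ≤ C * s * Real.log n := by positivity
    have := Nat.ceil_lt_add_one h0
    push_cast
    linarith
  have e3 : (k : ℝ) / k' * (2 * C' * s * Real.log n) = (4 * C + 4) * (s * Real.log n) := by
    rw [hC']; field_simp; ring
  have e4 : (k : ℝ) / k' * (2 * C' * s * Real.log n) ≤
      (k : ℝ) / k' * ((2 * ⌈C' * s * Real.log n⌉₊ : ℕ) : ℝ) :=
    mul_le_mul_of_nonneg_left e1 (by positivity)
  have hm : 2 * ((2 * ⌈C * s * Real.log n⌉₊ : ℕ) : ℝ) ≤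
      (k : ℝ) / k' * ((2 * ⌈C' * s * Real.log n⌉₊ : ℕ) : ℝ) := by
    nlinarith
  have h6 := rp_more (r := 2 ^ j) hk hkk x h5 hm
  refine h6.trans ?_
  have h7 : Real.exp (-((k : ℝ) / k' * ((2 * ⌈C' * s * Real.log n⌉₊ : ℕ) : ℝ) / 2)) ≤
      (n : ℝ) ^ (-(2 * η * s)) := by
    rw [Real.rpow_def_of_pos hn0]
    apply Real.exp_le_exp.2
    have : 2 * η * s * Real.log n ≤ 2 * (s * Real.log n) := by nlinarith
    nlinarith
  have h8 : rp (fun i : Fin k => x (Fin.castLE hkk i)) (2 * ⌈C * s * Real.log n⌉₊) (2 ^ j) ≤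
      (n : ℝ) ^ (-(2 * η * s)) := by
    refine (h j h3 h4).trans (Real.rpow_le_rpow_of_exponent_le hn1 ?_)
    nlinarith
  have h9 : (n : ℝ) ^ (-(2 * η * s)) = (n : ℝ) ^ (-(η * s)) * (n : ℝ) ^ (-(η * s)) := by
    rw [← Real.rpow_add hn0]; congr 1; ring
  have h10 : (n : ℝ) ^ (-(η * s)) ≤ 1 / 2 := by
    have h11 : (n : ℝ) ^ (-(η * s)) ≤ (n : ℝ) ^ (-η) :=
      Real.rpow_le_rpow_of_exponent_le hn1 (by nlinarith)
    refine h11.trans ?_
    rw [Real.rpow_neg hn0.le, one_div]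
    exact inv_anti₀ (by norm_num) h2
  have h12 : 0 < (n : ℝ) ^ (-(η * s)) := Real.rpow_pos_of_pos hn0 _
  nlinarith

/-- the marginal distribution of the first `k` coordinates -/
theorem frac_marginal {A : Type} [Fintype A] [DecidableEq A] [Nonempty A] (hA : 0 < Fintype.card A) {k k' : ℕ} (hkk : k ≤ k')
    (P : (Fin k → A) → Prop) :
    (Nat.card {z : Fin k → A // P z} : ℝ) / Nat.card (Fin k → A) ≤
    (Nat.card {x : Fin k' → A // P (fun i => x (Fin.castLE hkk i))} : ℝ) /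
      Nat.card (Fin k' → A) := by
  obtain ⟨m, rfl⟩ := Nat.exists_eq_add_of_le hkk
  have h := frac_blocks (A := A) k 0 m hA P (fun _ _ => True) 0 le_rfl
    (fun z _ => by simp)
  rw [sub_zero] at h
  refine h.trans (le_of_eq ?_)
  have e1 : Nat.card {x : Fin (k + 0 + m) → A //
      P (fun i => x (Fin.castAdd m (Fin.castAdd 0 i))) ∧ True} =
      Nat.card {x : Fin (k + m) → A // P (fun i => x (Fin.castLE hkk i))} :=
    Nat.card_congr (Equiv.subtypeEquivRight fun x => by simp; rfl)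
  rw [e1]
  rfl

theorem frac_le_one {X : Type} [Finite X] (P : X → Prop) :
    (Nat.card {x : X // P x} : ℝ) / Nat.card X ≤ 1 := by
  apply div_le_one_of_le₀ _ (Nat.cast_nonneg _)
  exact_mod_cast Nat.card_le_card_of_injective _ Subtype.val_injective

theorem frac_mono {X : Type} [Finite X] (P Q : X → Prop) (h : ∀ x, P x → Q x) :
    (Nat.card {x : X // P x} : ℝ) / Nat.card X ≤ (Nat.card {x : X // Q x} : ℝ) / Nat.card X := by
  refine div_le_div_of_nonneg_right ?_ (Nat.cast_nonneg _)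
  exact_mod_cast Nat.card_le_card_of_injective
    (fun x : {x : X // P x} => (⟨x.1, h x.1 x.2⟩ : {x : X // Q x}))
    (fun a b hab => Subtype.ext (congrArg (fun u => u.1) hab))

/-- a partial range with a larger number of generators, a larger constant `C` and a smaller `ξ` -/
theorem part_lift {lo hi : ℕ → ℝ} {k k' : ℕ} (hk : 1 ≤ k) (hkk : k ≤ k') {C ξ C' ξ' : ℝ}
    (hC : 0 < C) (hξ : 0 < ξ) (hC' : (k' : ℝ) / k * (2 * C + 2) ≤ C') (hξ' : ξ' ≤ min ξ 2 / 2)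
    (h : Tendsto (fun n : ℕ => (Nat.card {z : Fin k → Alt n // PRT z C ξ (lo n) (hi n)} : ℝ) /
      Nat.card (Fin k → Alt n)) atTop (𝓝 1)) :
    Tendsto (fun n : ℕ => (Nat.card {x : Fin k' → Alt n // PRT x C' ξ' (lo n) (hi n)} : ℝ) /
      Nat.card (Fin k' → Alt n)) atTop (𝓝 1) := by
  refine tendsto_of_tendsto_of_tendsto_of_le_of_le' h tendsto_const_nhds ?_
    (Eventually.of_forall fun n => frac_le_one _)
  filter_upwards [prt_more hk hkk hC hξ, eventually_ge_atTop 1] with n h1 hn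
  refine (frac_marginal Fintype.card_pos hkk _).trans (frac_mono _ _ fun x hx => ?_)
  exact prt_mono hn hC' hξ' (h1 x _ _ hx)

/-- **(g3)** union of two ranges -/
theorem part_union {lo mid hi : ℕ → ℝ} (h1 : S_PART lo mid) (h2 : S_PART mid hi) :
    S_PART lo hi := by
  obtain ⟨k₁, C₁, ξ₁, hk₁, hC₁, hξ₁, hl₁⟩ := h1
  obtain ⟨k₂, C₂, ξ₂, hk₂, hC₂, hξ₂, hl₂⟩ := h2
  set k' : ℕ := max k₁ k₂ with hk'
  have e1 : k₁ ≤ k' := le_max_left _ _
  have e2 : k₂ ≤ k' := le_max_right _ _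
  set C' : ℝ := max ((k' : ℝ) / k₁ * (2 * C₁ + 2)) ((k' : ℝ) / k₂ * (2 * C₂ + 2)) with hC'
  set ξ' : ℝ := min (min ξ₁ 2 / 2) (min ξ₂ 2 / 2) with hξ'
  have hk0 : (0 : ℝ) < k₁ := by exact_mod_cast hk₁
  have hk1 : (0 : ℝ) < k' := by
    have : 0 < k' := by omega
    exact_mod_cast this
  refine ⟨k', C', ξ', by omega, lt_max_of_lt_left (by positivity), ?_, ?_⟩
  · rw [hξ']; positivity
  have f1 := part_lift (lo := lo) (hi := mid) hk₁ e1 hC₁ hξ₁ (le_max_left _ _ : _ ≤ C')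
    (min_le_left _ _ : ξ' ≤ _) hl₁
  have f2 := part_lift (lo := mid) (hi := hi) hk₂ e2 hC₂ hξ₂ (le_max_right _ _ : _ ≤ C')
    (min_le_right _ _ : ξ' ≤ _) hl₂
  have f3 := (f1.add f2).sub_const 1
  rw [show (1 : ℝ) + 1 - 1 = 1 by norm_num] at f3
  refine tendsto_of_tendsto_of_tendsto_of_le_of_le' f3 tendsto_const_nhds ?_
    (Eventually.of_forall fun n => frac_le_one _)
  exact Eventually.of_forall fun n => inter_frac (X := Fin k' → Alt n) _ _ _
    fun x a b => prt_union a b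

/-- smaller range -/
theorem part_range {lo hi lo' hi' : ℕ → ℝ} (h : S_PART lo hi)
    (hlo : ∀ᶠ n : ℕ in atTop, lo n ≤ lo' n) (hhi : ∀ᶠ n : ℕ in atTop, hi' n ≤ hi n) :
    S_PART lo' hi' := by
  obtain ⟨k, C, ξ, hk, hC, hξ, hl⟩ := h
  refine ⟨k, C, ξ, hk, hC, hξ, ?_⟩
  refine tendsto_of_tendsto_of_tendsto_of_le_of_le' hl tendsto_const_nhds ?_
    (Eventually.of_forall fun n => frac_le_one _)
  filter_upwards [hlo, hhi] with n h1 h2
  exact frac_mono _ _ fun z hz j a b => hz j (h1.trans a) (b.trans h2)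

/-! ### One stage -/

/-- the number of dyadic levels -/
theorem levels_le {n : ℕ} (hn : 3 ≤ n) : ((Nat.log 2 n + 1 : ℕ) : ℝ) ≤ 3 * Real.log n := by
  have hn3' : (3 : ℝ) ≤ n := by exact_mod_cast hn
  have hn0 : (0 : ℝ) < n := by linarith
  have hlog : 1 ≤ Real.log n := by
    rw [Real.le_log_iff_exp_le hn0]
    have := Real.exp_one_lt_d9
    linarith
  have h1 : (2 : ℝ) ^ (Nat.log 2 n) ≤ n := by
    exact_mod_cast Nat.pow_log_le_self 2 (by omega)
  have h2 : (Nat.log 2 n : ℝ) * Real.log 2 ≤ Real.log n := by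
    rw [← Real.log_pow]
    exact Real.log_le_log (by positivity) h1
  have h3 : (0.6931471803 : ℝ) < Real.log 2 := Real.log_two_gt_d9
  have h4 : (0 : ℝ) ≤ Nat.log 2 n := Nat.cast_nonneg _
  push_cast
  nlinarith

open Classical in
/-- **(g5')** one stage, exceptional sets -/
theorem part_of_exc {lo hi : ℕ → ℝ} (h : S_EXC lo hi) : S_PART lo hi := by
  obtain ⟨k, q, C, ξ, δ, hk, hC, hξ, hδ, hl⟩ := h
  refine ⟨k + q, C, ξ, by omega, hC, hξ, ?_⟩
  have hδ' : Tendsto (fun n : ℕ => |δ n| * (3 * Real.log n)) atTop (𝓝 0) := by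
    have := (hδ.abs.const_mul 3)
    rw [abs_zero, mul_zero] at this
    refine this.congr' ?_
    filter_upwards [eventually_ge_atTop 1] with n hn
    have hn1 : (1 : ℝ) ≤ n := by exact_mod_cast hn
    rw [abs_mul, abs_of_nonneg (Real.log_nonneg hn1)]
    ring
  have hl' := hl.sub hδ'
  rw [sub_zero] at hl'
  refine tendsto_of_tendsto_of_tendsto_of_le_of_le' hl' tendsto_const_nhds ?_
    (Eventually.of_forall fun n => frac_le_one _)
  filter_upwards [eventually_ge_atTop 3] with n hn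
  have hn3' : (3 : ℝ) ≤ n := by exact_mod_cast hn
  have hlev := levels_le hn
  have h1 := frac_blocks (A := Alt n) k q 0 Fintype.card_pos (fun z : Fin k → Alt n =>
    ∀ j : ℕ, lo n ≤ (2 : ℝ) ^ j → (2 : ℝ) ^ j ≤ hi n → 2 ^ j ≤ n →
      (Nat.card {y : Fin q → Alt n // (n : ℝ) ^ (-(ξ * 2 ^ j)) <
        rp (Fin.append z y) (2 * ⌈C * 2 ^ j * Real.log n⌉₊) (2 ^ j)} : ℝ) ≤
        δ n * (Fintype.card (Alt n) : ℝ) ^ q)
    (fun z y => PRT (Fin.append z y) C ξ (lo n) (hi n)) (|δ n| * (3 * Real.log n))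
    (mul_nonneg (abs_nonneg _) (by linarith [Real.log_nonneg (show (1:ℝ) ≤ n by linarith)])) ?_
  · refine h1.trans ?_
    have e1 : Nat.card {x : Fin (k + q + 0) → Alt n //
        (∀ j : ℕ, lo n ≤ (2 : ℝ) ^ j → (2 : ℝ) ^ j ≤ hi n → 2 ^ j ≤ n →
          (Nat.card {y : Fin q → Alt n // (n : ℝ) ^ (-(ξ * 2 ^ j)) <
            rp (Fin.append (fun i => x (Fin.castAdd 0 (Fin.castAdd q i))) y)
              (2 * ⌈C * 2 ^ j * Real.log n⌉₊) (2 ^ j)} : ℝ) ≤
            δ n * (Fintype.card (Alt n) : ℝ) ^ q) ∧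
          PRT (Fin.append (fun i => x (Fin.castAdd 0 (Fin.castAdd q i)))
            (fun i => x (Fin.castAdd 0 (Fin.natAdd k i)))) C ξ (lo n) (hi n)} ≤
        Nat.card {x : Fin (k + q) → Alt n // PRT x C ξ (lo n) (hi n)} := by
      refine Nat.card_le_card_of_injective (fun x => (⟨x.1, ?_⟩ :
        {x : Fin (k + q) → Alt n // PRT x C ξ (lo n) (hi n)})) ?_
      · have h2 := x.2.2
        have h3 : (Fin.append (fun i => x.1 (Fin.castAdd 0 (Fin.castAdd q i)))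
            (fun i => x.1 (Fin.castAdd 0 (Fin.natAdd k i))) : Fin (k + q) → Alt n) = x.1 :=
          Fin.append_castAdd_natAdd (m := k) (n := q) (f := (x.1 : Fin (k + q) → Alt n))
        rw [h3] at h2
        exact h2
      · intro u v huv
        exact Subtype.ext (by simpa using congrArg Subtype.val huv)
    exact div_le_div_of_nonneg_right (Nat.cast_le.2 e1) (Nat.cast_nonneg _)
  · intro z hz
    set N : ℝ := (Fintype.card (Alt n) : ℝ) ^ q with hN
    have hN0 : 0 ≤ N := by positivity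
    -- the bad `y` lie in the union over the levels
    obtain ⟨Bd, hBd⟩ : ∃ Bd : ℕ → Finset (Fin q → Alt n), Bd = fun j : ℕ =>
        (Finset.univ : Finset (Fin q → Alt n)).filter (fun y => (n : ℝ) ^ (-(ξ * 2 ^ j)) <
          rp (Fin.append z y) (2 * ⌈C * 2 ^ j * Real.log n⌉₊) (2 ^ j)) := ⟨_, rfl⟩
    obtain ⟨Lv, hLv⟩ : ∃ Lv : Finset ℕ, Lv = (Finset.range (Nat.log 2 n + 1)).filter
        (fun j : ℕ => lo n ≤ (2 : ℝ) ^ j ∧ (2 : ℝ) ^ j ≤ hi n) := ⟨_, rfl⟩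
    have h5 : ∀ P : (Fin q → Alt n) → Prop, Nat.card {y : Fin q → Alt n // P y} =
        ((Finset.univ : Finset (Fin q → Alt n)).filter P).card := by
      intro P
      rw [Nat.card_eq_fintype_card, Fintype.card_subtype]
    have h2 : (Nat.card {y : Fin q → Alt n // ¬ PRT (Fin.append z y) C ξ (lo n) (hi n)} : ℝ) ≤
        ∑ j ∈ Lv, ((Bd j).card : ℝ) := by
      have h3 : ((Finset.univ : Finset (Fin q → Alt n)).filter
          (fun y => ¬ PRT (Fin.append z y) C ξ (lo n) (hi n))) ⊆ Lv.biUnion Bd := by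
        intro y hy
        rw [Finset.mem_filter] at hy
        have hy2 := hy.2
        unfold PRT at hy2
        push Not at hy2
        obtain ⟨j, a1, a2, a3⟩ := hy2
        rw [Finset.mem_biUnion]
        refine ⟨j, ?_, ?_⟩
        · rw [hLv, Finset.mem_filter, Finset.mem_range]
          refine ⟨?_, a1, a2⟩
          rcases Nat.lt_or_ge n (2 ^ j) with h5 | h5
          · exfalso
            rw [rp_zero_of_lt _ _ h5] at a3
            exact absurd a3 (not_lt.2 (Real.rpow_nonneg (by positivity) _))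
          · have := Nat.le_log_of_pow_le (b := 2) (by norm_num) h5
            omega
        · rw [hBd, Finset.mem_filter]
          exact ⟨Finset.mem_univ _, a3⟩
      have h4 := (Finset.card_le_card h3).trans Finset.card_biUnion_le
      have h10 : Nat.card {y : Fin q → Alt n // ¬ PRT (Fin.append z y) C ξ (lo n) (hi n)} ≤
          ∑ j ∈ Lv, (Bd j).card := by
        rw [h5]
        refine le_trans (le_of_eq ?_) h4
        congr
      exact_mod_cast h10
    refine h2.trans ?_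
    have h6 : ∀ j ∈ Lv, ((Bd j).card : ℝ) ≤ |δ n| * N := by
      intro j hj
      rw [hLv, Finset.mem_filter, Finset.mem_range] at hj
      have h7 : 2 ^ j ≤ n := (Nat.pow_le_pow_right (by norm_num) (by omega)).trans
        (Nat.pow_log_le_self 2 (by omega))
      have h8 := hz j hj.2.1 hj.2.2 h7
      rw [h5] at h8
      rw [hBd]
      exact h8.trans (mul_le_mul_of_nonneg_right (le_abs_self _) hN0)
    refine (Finset.sum_le_sum h6).trans ?_
    rw [Finset.sum_const, nsmul_eq_mul]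
    have h8 : ((Lv.card : ℕ) : ℝ) ≤ 3 * Real.log n := by
      refine le_trans ?_ hlev
      have := Finset.card_filter_le (Finset.range (Nat.log 2 n + 1)) (fun j : ℕ =>
        lo n ≤ (2 : ℝ) ^ j ∧ (2 : ℝ) ^ j ≤ hi n)
      rw [Finset.card_range] at this
      rw [hLv]
      exact_mod_cast this
    have h9 : 0 ≤ |δ n| * N := mul_nonneg (abs_nonneg _) hN0
    calc _ ≤ 3 * Real.log n * (|δ n| * N) := mul_le_mul_of_nonneg_right h8 h9
      _ = |δ n| * (3 * Real.log n) * N := by ring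

open Classical in
/-- **(g5)** one stage, averages -/
theorem exc_of_avg {lo hi : ℕ → ℝ} (h : S_AVG lo hi) : S_EXC lo hi := by
  obtain ⟨k, q, C, ξ, hk, hC, hξ, hl⟩ := h
  refine ⟨k, q, C, ξ / 2, fun n => (n : ℝ) ^ (-(ξ / 2)), hk, hC, by positivity, ?_, ?_⟩
  · have h1 := (isLittleO_log_rpow_atTop (show 0 < ξ / 2 by positivity)).tendsto_div_nhds_zero
    have h2 := h1.comp tendsto_natCast_atTop_atTop
    refine h2.congr' ?_
    filter_upwards [eventually_ge_atTop 1] with n hn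
    have hn0 : (0 : ℝ) < n := by exact_mod_cast hn
    simp only [Function.comp]
    rw [Real.rpow_neg hn0.le, div_eq_inv_mul]
  · refine tendsto_of_tendsto_of_tendsto_of_le_of_le' hl tendsto_const_nhds ?_
      (Eventually.of_forall fun n => frac_le_one _)
    filter_upwards [eventually_ge_atTop 1] with n hn
    have hn1 : (1 : ℝ) ≤ n := by exact_mod_cast hn
    have hn0 : (0 : ℝ) < n := by linarith
    refine frac_mono _ _ fun z hz j a1 a2 a3 => ?_
    have h1 := hz j a1 a2 a3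
    have h5 : ∀ P : (Fin q → Alt n) → Prop, Nat.card {y : Fin q → Alt n // P y} =
        ((Finset.univ : Finset (Fin q → Alt n)).filter P).card := by
      intro P
      rw [Nat.card_eq_fintype_card, Fintype.card_subtype]
    rw [h5]
    set s : ℝ := 2 ^ j with hs
    have hs1 : 1 ≤ s := one_le_pow₀ (by norm_num)
    set N : ℝ := (Fintype.card (Alt n) : ℝ) ^ q with hN
    have hN0 : 0 ≤ N := by positivity
    set B := (Finset.univ : Finset (Fin q → Alt n)).filter (fun y => (n : ℝ) ^ (-(ξ / 2 * s)) <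
      rp (Fin.append z y) (2 * ⌈C * s * Real.log n⌉₊) (2 ^ j)) with hB
    have h2 : (B.card : ℝ) * (n : ℝ) ^ (-(ξ / 2 * s)) ≤ (n : ℝ) ^ (-(ξ * s)) * N := by
      refine le_trans ?_ h1
      rw [← nsmul_eq_mul, ← Finset.sum_const]
      refine (Finset.sum_le_sum (fun y hy => ((Finset.mem_filter.1 hy).2).le)).trans ?_
      exact Finset.sum_le_sum_of_subset_of_nonneg (Finset.subset_univ _)
        fun y _ _ => rp_nonneg _ _ _
    have h3 : 0 < (n : ℝ) ^ (-(ξ / 2 * s)) := Real.rpow_pos_of_pos hn0 _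
    have h4 : (n : ℝ) ^ (-(ξ * s)) = (n : ℝ) ^ (-(ξ / 2 * s)) * (n : ℝ) ^ (-(ξ / 2 * s)) := by
      rw [← Real.rpow_add hn0]; congr 1; ring
    rw [h4] at h2
    have h6 : (B.card : ℝ) ≤ (n : ℝ) ^ (-(ξ / 2 * s)) * N := by
      by_contra hc
      push Not at hc
      have := mul_lt_mul_of_pos_right hc h3
      nlinarith
    refine h6.trans (mul_le_mul_of_nonneg_right ?_ hN0)
    exact Real.rpow_le_rpow_of_exponent_le hn1 (by nlinarith)

theorem part_of_avg {lo hi : ℕ → ℝ} (h : S_AVG lo hi) : S_PART lo hi :=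
  part_of_exc (exc_of_avg h)

/-! ### From `S_PART` to (X') -/

theorem lazyLaw_nn {n k : ℕ} (z : Fin k → Alt n) : ∀ (t : ℕ) (g : Perm (Fin n)),
    0 ≤ lazyLaw z t g
  | 0, g => by
    show 0 ≤ if g = 1 then (1 : ℝ) else 0
    split_ifs <;> norm_num
  | t + 1, g => by
    show 0 ≤ (1 / 2) * lazyLaw z t g + (4 * (k : ℝ))⁻¹ *
      ∑ i, (lazyLaw z t (g * (z i : Perm (Fin n))⁻¹) + lazyLaw z t (g * (z i : Perm (Fin n))))
    have h1 := lazyLaw_nn z t g
    have h2 : 0 ≤ ∑ i, (lazyLaw z t (g * (z i : Perm (Fin n))⁻¹) +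
        lazyLaw z t (g * (z i : Perm (Fin n)))) :=
      Finset.sum_nonneg fun i _ => add_nonneg (lazyLaw_nn z t _) (lazyLaw_nn z t _)
    positivity

theorem descF_ge (F s : ℕ) (h : 2 * s ≤ F) : s ^ s ≤ F.descFactorial s := by
  have h1 := Nat.pow_sub_le_descFactorial F s
  refine (Nat.pow_le_pow_left (show s ≤ F + 1 - s by omega) s).trans h1

/-- the probability to fix at least `2 s` points -/
theorem prob_le_rp {n k : ℕ} (z : Fin k → Alt n) (t s s' : ℕ) (hs : 1 ≤ s) (hsn : s ≤ n)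
    (hss : 2 * s ≤ s') :
    ∑ g : Perm (Fin n), lazyLaw z t g * (if s' ≤ fixc g then (1 : ℝ) else 0) ≤
      ((n : ℝ) / s) ^ s * rp z t s := by
  have hs0 : (0 : ℝ) < s := by exact_mod_cast hs
  have hn0 : (0 : ℝ) < n := by
    have : 0 < n := by omega
    exact_mod_cast this
  have hdf : (0 : ℝ) < (n.descFactorial s : ℝ) := by
    exact_mod_cast Nat.descFactorial_pos.2 hsn
  unfold Pool.Agent.Helper38.FS.rp
  rw [Finset.mul_sum]
  refine Finset.sum_le_sum fun g _ => ?_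
  have hl := lazyLaw_nn z t g
  have e1 : (Finset.univ.filter fun x => g x = x).card = fixc g := by
    unfold fixc
    rfl
  by_cases h : s' ≤ fixc g
  · rw [if_pos h, mul_one]
    have h1 : (1 : ℝ) ≤ ((n : ℝ) / s) ^ s *
        (((Finset.univ.filter fun x => g x = x).card.descFactorial s : ℝ) /
          (n.descFactorial s : ℝ)) := by
      rw [e1]
      have h2 : (s : ℝ) ^ s ≤ ((fixc g).descFactorial s : ℝ) := by
        exact_mod_cast descF_ge (fixc g) s (hss.trans h)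
      have h3 : (n.descFactorial s : ℝ) ≤ (n : ℝ) ^ s := by
        exact_mod_cast Nat.descFactorial_le_pow n s
      rw [div_pow, div_mul_div_comm, le_div_iff₀ (by positivity), one_mul]
      have h4 : (0 : ℝ) < (n : ℝ) ^ s := by positivity
      have h5 : (0 : ℝ) < (s : ℝ) ^ s := by positivity
      calc (s : ℝ) ^ s * (n.descFactorial s : ℝ) ≤ (s : ℝ) ^ s * (n : ℝ) ^ s :=
            mul_le_mul_of_nonneg_left h3 h5.le
        _ = (n : ℝ) ^ s * (s : ℝ) ^ s := by ring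
        _ ≤ (n : ℝ) ^ s * ((fixc g).descFactorial s : ℝ) := mul_le_mul_of_nonneg_left h2 h4.le
    calc lazyLaw z t g = lazyLaw z t g * 1 := (mul_one _).symm
      _ ≤ lazyLaw z t g * (((n : ℝ) / s) ^ s *
          (((Finset.univ.filter fun x => g x = x).card.descFactorial s : ℝ) /
          (n.descFactorial s : ℝ))) := mul_le_mul_of_nonneg_left h1 hl
      _ = _ := by ring
  · rw [if_neg h, mul_zero]
    positivity

/-- **(g4)** -/
theorem xp_of_part {β κ : ℝ} (hβ : β < 1) (hκ : 0 < κ)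
    (h : S_PART (fun n => (n : ℝ) ^ β) (fun n => κ * n)) : S_XP := by
  obtain ⟨k, C, ξ, hk, hC, hξ, hl⟩ := h
  set β' : ℝ := max (max ((1 + β) / 2) (1 - ξ / 4)) (1 / 2) with hβ'
  have b1 : β' < 1 := max_lt (max_lt (by linarith) (by linarith)) (by norm_num)
  have b2 : β < β' := lt_of_lt_of_le (by linarith)
    ((le_max_left _ _).trans (le_max_left _ _) : (1 + β) / 2 ≤ β')
  have b3 : 1 - ξ / 4 ≤ β' := (le_max_right _ _).trans (le_max_left _ _)
  have b5 : 1 / 2 ≤ β' := le_max_right _ _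
  have hκ' : 0 < min κ 1 := lt_min hκ one_pos
  refine ⟨k, β', min κ 1, C, ξ / 8, hk, b1, hκ', hC, by positivity, ?_⟩
  refine tendsto_of_tendsto_of_tendsto_of_le_of_le' hl tendsto_const_nhds ?_
    (Eventually.of_forall fun n => frac_le_one _)
  have ev1 : ∀ᶠ n : ℕ in atTop, (4 : ℝ) ≤ (n : ℝ) ^ (β' - β) :=
    ((tendsto_rpow_atTop (show 0 < β' - β by linarith)).comp
      tendsto_natCast_atTop_atTop).eventually_ge_atTop 4
  have ev2 : ∀ᶠ n : ℕ in atTop, (4 : ℝ) ≤ (n : ℝ) ^ (ξ / 4) :=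
    ((tendsto_rpow_atTop (show 0 < ξ / 4 by linarith)).comp
      tendsto_natCast_atTop_atTop).eventually_ge_atTop 4
  have ev3 : ∀ᶠ n : ℕ in atTop, (2 : ℝ) ≤ (n : ℝ) ^ β' :=
    ((tendsto_rpow_atTop (show 0 < β' by linarith)).comp
      tendsto_natCast_atTop_atTop).eventually_ge_atTop 2
  filter_upwards [ev1, ev2, ev3, eventually_ge_atTop 3] with n hn4 hn5 hn6 hn3
  have hn3' : (3 : ℝ) ≤ n := by exact_mod_cast hn3
  have hn0 : (0 : ℝ) < n := by linarith
  have hn1 : (1 : ℝ) ≤ n := by linarith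
  have hlog : 0 ≤ Real.log n := Real.log_nonneg hn1
  refine frac_mono _ _ fun z hz => ?_
  intro s' hs1 hs2
  have c2 : (s' : ℝ) ≤ κ * n := hs2.trans (mul_le_mul_of_nonneg_right (min_le_left _ _) hn0.le)
  have c3 : (s' : ℝ) ≤ n := hs2.trans (by nlinarith [min_le_right κ 1])
  have c3' : s' ≤ n := by exact_mod_cast c3
  have c4 : 4 * (n : ℝ) ^ β ≤ s' := by
    refine le_trans ?_ hs1
    have : (n : ℝ) ^ β' = (n : ℝ) ^ (β' - β) * (n : ℝ) ^ β := by
      rw [← Real.rpow_add hn0]; congr 1; ring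
    rw [this]
    exact mul_le_mul_of_nonneg_right hn4 (Real.rpow_nonneg hn0.le _)
  have c1 : 2 ≤ s' := by
    have : (2 : ℝ) ≤ s' := hn6.trans hs1
    exact_mod_cast this
  -- the dyadic level
  obtain ⟨j, d1, d2⟩ : ∃ j : ℕ, 2 * 2 ^ j ≤ s' ∧ s' < 4 * 2 ^ j := by
    have h1 : 1 ≤ Nat.log 2 s' := Nat.le_log_of_pow_le (b := 2) (by norm_num) (by simpa using c1)
    refine ⟨Nat.log 2 s' - 1, ?_, ?_⟩
    · have h2 := Nat.pow_log_le_self 2 (show s' ≠ 0 by omega)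
      have h3 : 2 * 2 ^ (Nat.log 2 s' - 1) = 2 ^ (Nat.log 2 s') := by
        rw [← pow_succ']; congr 1; omega
      rw [h3]; exact h2
    · have h2 := Nat.lt_pow_succ_log_self (b := 2) (by norm_num) s'
      have h3 : 4 * 2 ^ (Nat.log 2 s' - 1) = 2 ^ (Nat.log 2 s' + 1) := by
        rw [show (4 : ℕ) = 2 ^ 2 by norm_num, ← pow_add]; congr 1; omega
      rw [h3]; exact h2
  have d3 : (2 : ℝ) * 2 ^ j ≤ s' := by exact_mod_cast d1
  have d4 : (s' : ℝ) < 4 * 2 ^ j := by exact_mod_cast d2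
  set s : ℝ := (2 : ℝ) ^ j with hs
  have hs1' : (1 : ℝ) ≤ s := one_le_pow₀ (by norm_num)
  have hs0 : 0 < s := by linarith
  have e1 : (n : ℝ) ^ β ≤ s := by linarith
  have e2 : s ≤ κ * n := by linarith
  have e3 : 2 ^ j ≤ n := by omega
  have hP := hz j e1 e2
  have f1 := prob_le_rp z (2 * ⌈C * s' * Real.log n⌉₊) (2 ^ j) s' (Nat.one_le_two_pow) e3 d1
  refine f1.trans ?_
  have f2 : rp z (2 * ⌈C * s' * Real.log n⌉₊) (2 ^ j) ≤ (n : ℝ) ^ (-(ξ * s)) := by
    refine (rp_anti z ?_ (2 ^ j)).trans hP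
    refine Nat.mul_le_mul_left 2 (Nat.ceil_mono ?_)
    have : C * s ≤ C * s' := mul_le_mul_of_nonneg_left (by linarith) hC.le
    exact mul_le_mul_of_nonneg_right this hlog
  have f3 : ((2 ^ j : ℕ) : ℝ) = s := by push_cast; rfl
  rw [f3]
  have f4 : (n : ℝ) / s ≤ (n : ℝ) ^ (ξ / 2) := by
    rw [div_le_iff₀ hs0]
    have g1 : (n : ℝ) ^ (1 - ξ / 4) ≤ 4 * s :=
      (Real.rpow_le_rpow_of_exponent_le hn1 b3).trans (hs1.trans d4.le)
    have g2 : (n : ℝ) = (n : ℝ) ^ (ξ / 4) * (n : ℝ) ^ (1 - ξ / 4) := by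
      rw [← Real.rpow_add hn0, show ξ / 4 + (1 - ξ / 4) = 1 by ring, Real.rpow_one]
    have g3 : (n : ℝ) ^ (ξ / 2) = (n : ℝ) ^ (ξ / 4) * (n : ℝ) ^ (ξ / 4) := by
      rw [← Real.rpow_add hn0]; congr 1; ring
    have g4 : 0 < (n : ℝ) ^ (ξ / 4) := Real.rpow_pos_of_pos hn0 _
    calc (n : ℝ) = (n : ℝ) ^ (ξ / 4) * (n : ℝ) ^ (1 - ξ / 4) := g2
      _ ≤ (n : ℝ) ^ (ξ / 4) * (4 * s) := mul_le_mul_of_nonneg_left g1 g4.le
      _ ≤ (n : ℝ) ^ (ξ / 4) * ((n : ℝ) ^ (ξ / 4) * s) :=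
          mul_le_mul_of_nonneg_left (mul_le_mul_of_nonneg_right hn5 hs0.le) g4.le
      _ = (n : ℝ) ^ (ξ / 2) * s := by rw [g3]; ring
  have f5 : ((n : ℝ) / s) ^ (2 ^ j) ≤ (n : ℝ) ^ (ξ / 2 * s) := by
    calc ((n : ℝ) / s) ^ (2 ^ j) ≤ ((n : ℝ) ^ (ξ / 2)) ^ (2 ^ j) :=
          pow_le_pow_left₀ (by positivity) f4 _
      _ = (n : ℝ) ^ (ξ / 2 * s) := by
          rw [← Real.rpow_natCast, ← Real.rpow_mul hn0.le, f3]
  calc ((n : ℝ) / s) ^ (2 ^ j) * rp z (2 * ⌈C * s' * Real.log n⌉₊) (2 ^ j)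
      ≤ (n : ℝ) ^ (ξ / 2 * s) * (n : ℝ) ^ (-(ξ * s)) :=
        mul_le_mul f5 f2 (rp_nonneg _ _ _) (Real.rpow_nonneg hn0.le _)
    _ = (n : ℝ) ^ (-(ξ / 2 * s)) := by
        rw [← Real.rpow_add hn0]; congr 1; ring
    _ ≤ (n : ℝ) ^ (-(ξ / 8 * s')) := by
        refine Real.rpow_le_rpow_of_exponent_le hn1 ?_
        nlinarith

theorem end_of_part {β κ : ℝ} (hβ : β < 1) (hκ : 0 < κ)
    (h : S_PART (fun n => (n : ℝ) ^ β) (fun n => κ * n)) : S_END :=
  end_main (xp_of_part hβ hκ h)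

end Pool.Agent.Helper3.FS
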