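import Pool.Agent.Helper6.NX.Pwn
import Pool.Agent.Helper15.An.Good
import Pool.Agent.Helper3.AK.Defs

/-! Project FS (MP_75608d_al, a fixed number of generators and a constant gap): the property (X')
and the statement of the end part (X') implies the theorem.

`XP z β κ C ξ`: for every natural number `s` with `n^β ≤ s ≤ κ n`, the lazy walk of length
`2 ⌈C s log n⌉` fixes at least `s` of the `n` points with probability at most `n^(-ξ s)`.
This is the only input the end part needs from the regions (small, middle, top levels). -/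

set_option linter.unusedVariables false

namespace Pool.Agent.Helper3.FS

open Matrix Equiv Filter Topology Pool.Agent.Helper15.An Pool.Agent.Helper6.NX
open Pool.Agent.Helper3.AK (lazyLaw)

/-- (X'): words of length about `C s log n` rarely fix `s` points -/
def XP {n k : ℕ} (z : Fin k → Alt n) (β κ C ξ : ℝ) : Prop :=
  ∀ s : ℕ, (n : ℝ) ^ β ≤ s → (s : ℝ) ≤ κ * n →
    ∑ g : Perm (Fin n), lazyLaw z (2 * ⌈C * s * Real.log n⌉₊) g *
      (if s ≤ fixc g then (1 : ℝ) else 0) ≤ (n : ℝ) ^ (-(ξ * s))

/-- (X') holds with probability tending to one -/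
def S_XP : Prop := ∃ (k : ℕ) (β κ C ξ : ℝ), 1 ≤ k ∧ β < 1 ∧ 0 < κ ∧ 0 < C ∧ 0 < ξ ∧
  Tendsto (fun n : ℕ => (Nat.card {z : Fin k → Alt n // XP z β κ C ξ} : ℝ) /
    Nat.card (Fin k → Alt n)) atTop (𝓝 1)

/-- the conclusion: for all large fixed `k` the gap is at least a constant `ε > 0` (which may
depend on `k`) in all irreducible representations -/
def S_END : Prop := ∃ K : ℕ, 2 ≤ K ∧ ∀ k : ℕ, K ≤ k → ∃ ε : ℝ, 0 < ε ∧
  Tendsto (fun n : ℕ => (Nat.card {x : Fin k → Alt n //
    Good (pwn n) (tupW x) n ε} : ℝ) / Nat.card (Fin k → Alt n)) atTop (𝓝 1)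

end Pool.Agent.Helper3.FS
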