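import Pool.Agent.Helper3.FS.Point
import Pool.Agent.Helper6.W.LogNat

/-! Project FS: exponentially small characters of the permutations with few fixed points, on all
the levels above `n^α`. -/

set_option linter.unusedVariables false

namespace Pool.Agent.Helper3.FS

open Matrix Equiv Filter Topology Pool.Agent.Helper15.An Pool.Agent.Helper6.NX
open scoped ComplexOrder

variable {n : ℕ}

theorem D_le (F : PW (Perm (Fin n))) (i : Fin F.c) (hn : 1 ≤ n) :
    (F.D i : ℝ) ≤ (n : ℝ) ^ n := by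
  have h1 := F.col 1 1
  have h2 : (Finset.univ.filter (fun x : Perm (Fin n) => 1 * x * 1 = x)) = Finset.univ := by
    ext x; simp
  rw [h2, Finset.card_univ, Fintype.card_perm, Fintype.card_fin] at h1
  have h3 : ∑ j, ((F.D j : ℕ) : ℝ) * (F.D j : ℝ) = (n.factorial : ℝ) := by
    have h4 : ((∑ j, ((F.D j : ℕ) : ℝ) * (F.D j : ℝ) : ℝ) : ℂ) = ((n.factorial : ℝ) : ℂ) := by
      push_cast
      rw [← h1]
      refine Finset.sum_congr rfl fun j _ => ?_
      rw [map_one, trace_one, Fintype.card_fin]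
    exact_mod_cast h4
  have h5 : ((F.D i : ℕ) : ℝ) * (F.D i : ℝ) ≤ (n.factorial : ℝ) := by
    rw [← h3]
    exact Finset.single_le_sum (f := fun j => ((F.D j : ℕ) : ℝ) * (F.D j : ℝ))
      (fun j _ => by positivity) (Finset.mem_univ i)
  have h6 : (1 : ℝ) ≤ F.D i := by exact_mod_cast (F.irr i).pos
  have h7 : (n.factorial : ℝ) ≤ (n : ℝ) ^ n := by exact_mod_cast Nat.factorial_le_pow n
  nlinarith

/-- from a bound for the fourth power -/
theorem root4 {q Λ : ℝ} (hq : 0 ≤ q) (h : q ^ 4 ≤ 2 * Real.exp (-(Λ / 2))) :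
    q ≤ 2 * Real.exp (-(Λ / 8)) := by
  have h1 : (2 * Real.exp (-(Λ / 8))) ^ 4 = 16 * Real.exp (-(Λ / 2)) := by
    rw [mul_pow, ← Real.exp_nat_mul]
    norm_num
    ring_nf
  have h2 : q ^ 4 ≤ (2 * Real.exp (-(Λ / 8))) ^ 4 := by
    rw [h1]
    have := Real.exp_pos (-(Λ / 2))
    linarith
  exact le_of_pow_le_pow_left₀ (by norm_num) (by positivity) h2

theorem re_le_norm_mul {D : ℕ} (hD : 0 < D) (t : ℂ) {b : ℝ} (h : ‖t‖ / D ≤ b) :
    t.re ≤ D * b := by
  have hD' : (0 : ℝ) < D := by exact_mod_cast hD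
  have h1 : t.re ≤ ‖t‖ := (le_abs_self _).trans (Complex.abs_re_le_norm t)
  rw [div_le_iff₀ hD'] at h
  linarith

theorem spec (hmx : S_MX) (hpairb : S_PAIRB) (his2 : S_IS2) (hkey : S_KEY) (hf1 : S_F1)
    (hf2 : S_F2) (hf3 : S_F3) (hit : S_IT) : ∃ c₄ : ℝ, 0 < c₄ ∧ c₄ ≤ 1 / 8 ∧ ∀ α : ℝ, 0 < α →
    α < 1 → ∀ᶠ n : ℕ in atTop, ∀ (F : PW (Perm (Fin n))) (i : Fin F.c),
    ¬ HasFix (F.ρ i) (stab n ⌊(n : ℝ) ^ α⌋₊) → ∃ Λ : ℝ, (n : ℝ) ^ α ≤ Λ ∧
      Λ ≤ n * Real.log n ∧ Real.log (F.D i) ≤ Λ ∧ ∀ w ∈ Alt n,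
        8 * (fixc w * Real.log n) ≤ Λ →
        (trace (F.ρ i w)).re ≤ F.D i * (2 * Real.exp (-(c₄ * Λ))) := by
  set E : ℝ := Real.exp 124 with hE
  have hE8 : (8 : ℝ) ≤ E := by
    have := Real.add_one_le_exp (124 : ℝ)
    linarith
  have hE0 : 0 < E := by linarith
  set c : ℝ := 1 / (4 * E) with hc
  have hc0 : 0 < c := by positivity
  have hc32 : c ≤ 1 / 32 := by
    rw [hc]
    apply one_div_le_one_div_of_le (by norm_num)
    linarith
  obtain ⟨c₇, hc7, hF2⟩ := hf2 c hc0 hc32
  refine ⟨min (1 / 8) (c₇ / 120), lt_min (by norm_num) (by positivity), min_le_left _ _, ?_⟩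
  set c₄ : ℝ := min (1 / 8) (c₇ / 120) with hc4
  have hc40 : 0 < c₄ := lt_min (by norm_num) (by positivity)
  have hc48 : c₄ ≤ 1 / 8 := min_le_left _ _
  have hc47 : c₄ ≤ c₇ / 120 := min_le_right _ _
  intro α hα0 hα1
  filter_upwards [hF2 1 one_pos le_rfl,
    Pool.Agent.Helper6.W.tendsto_log_nat.eventually_ge_atTop 601, eventually_ge_atTop 81]
    with n a1 a2 a3
  intro F i hi
  have hn1 : (81 : ℝ) ≤ n := by exact_mod_cast a3
  have hn0 : (0 : ℝ) < n := by linarith
  have hL0 : 0 < Real.log n := by linarith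
  have hnα : (n : ℝ) ^ α ≤ n := by
    calc (n : ℝ) ^ α ≤ (n : ℝ) ^ (1 : ℝ) := Real.rpow_le_rpow_of_exponent_le (by linarith) hα1.le
      _ = n := Real.rpow_one _
  have hD : 0 < F.D i := (F.irr i).pos
  have hD' : (0 : ℝ) < F.D i := by exact_mod_cast hD
  have hD1 : (1 : ℝ) ≤ F.D i := by exact_mod_cast hD
  have hDn : Real.log (F.D i) ≤ n * Real.log n := by
    rw [← Real.log_pow]
    exact Real.log_le_log hD' (D_le F i (by omega))
  have hexpD : Real.exp (Real.log (F.D i)) = F.D i := Real.exp_log hD'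
  have hpow : ∀ (w : Perm (Fin n)), (n : ℝ) ^ (2 * fixc w) =
      Real.exp (2 * (fixc w * Real.log n)) := by
    intro w
    rw [← Real.exp_log hn0, ← Real.exp_nat_mul, Real.exp_log hn0]
    congr 1
    push_cast
    ring
  -- the level
  classical
  have hex : ∃ r, HasFix (F.ρ i) (stab n r) := ⟨n, hasFix_top hD (F.ρ i)⟩
  set r := Nat.find hex with hr
  have hrfix : HasFix (F.ρ i) (stab n r) := Nat.find_spec hex
  have hrn : r ≤ n := Nat.find_min' hex (hasFix_top hD (F.ρ i))
  have hlt : ∀ s, s < r → ¬ HasFix (F.ρ i) (stab n s) := fun s hs' => Nat.find_min hex hs'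
  have hmr : ⌊(n : ℝ) ^ α⌋₊ < r := by
    by_contra hcon
    push Not at hcon
    exact hi (hrfix.mono hcon)
  have hpr : (n : ℝ) ^ α ≤ r := by
    have h1 : (n : ℝ) ^ α < ⌊(n : ℝ) ^ α⌋₊ + 1 := Nat.lt_floor_add_one _
    have h2 : ((⌊(n : ℝ) ^ α⌋₊ : ℕ) : ℝ) + 1 ≤ r := by exact_mod_cast hmr
    linarith
  have hr1 : 1 ≤ r := by omega
  have hr1' : (1 : ℝ) ≤ r := by exact_mod_cast hr1
  by_cases hcase : (r : ℝ) ≤ c * n
  · -- case a
    have hbig : 4 * E * r ≤ n := by
      rw [hc, div_mul_eq_mul_div, one_mul, le_div_iff₀ (by positivity)] at hcase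
      linarith
    have h32 : 32 * (r : ℝ) ≤ n := by nlinarith
    have h32' : 32 * r ≤ n := by exact_mod_cast h32
    have e1 := hf3 n r (F.D i) (F.ρ i) hr1 (by omega) (F.irr i).unit hrfix
      (hlt (r - 1) (by omega))
    have e2 : Real.exp (124 * r) ≤ 2 * F.D i := by
      refine le_trans ?_ e1
      rw [mul_comm, Real.exp_nat_mul]
      refine pow_le_pow_left₀ hE0.le ?_ r
      rw [le_div_iff₀ (by linarith)]
      nlinarith
    have e3 : 123 * (r : ℝ) ≤ Real.log (F.D i) := by
      have h1 : Real.exp (123 * r) ≤ F.D i := by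
        have h2 : Real.exp (124 * r) = Real.exp r * Real.exp (123 * r) := by
          rw [← Real.exp_add]; congr 1; ring
        have h3 : (2 : ℝ) ≤ Real.exp r := by
          have := Real.add_one_le_exp (r : ℝ)
          linarith
        have h4 := Real.exp_pos (123 * (r : ℝ))
        rw [h2] at e2
        nlinarith
      exact (Real.le_log_iff_exp_le hD').2 h1
    refine ⟨Real.log (F.D i), by linarith, hDn, le_rfl, fun w hw hfw => ?_⟩
    set Λ : ℝ := Real.log (F.D i) with hΛ
    have hΛ0 : 0 ≤ Λ := by linarith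
    have h1 := (pt hmx hpairb his2 hkey hf1 hit a3 F w hw i).1 r hr1 hrn hrfix
    rw [hpow w] at h1
    set q : ℝ := ‖trace (F.ρ i w)‖ / F.D i with hq
    have hq0 : 0 ≤ q := by positivity
    have h2 : q ^ 4 ≤ 2 * Real.exp (-(Λ / 2)) := by
      have h3 : (F.D i : ℝ) * q ^ 4 ≤ (F.D i : ℝ) * (2 * Real.exp (-(Λ / 2))) := by
        refine h1.trans ?_
        rw [← Real.exp_add]
        have h4 : (F.D i : ℝ) * (2 * Real.exp (-(Λ / 2))) = 2 * Real.exp (Λ / 2) := by
          rw [← hexpD]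
          have : Real.exp Λ * (2 * Real.exp (-(Λ / 2))) = 2 * Real.exp (Λ + -(Λ / 2)) := by
            rw [Real.exp_add]; ring
          rw [this]; congr 2; ring
        rw [h4]
        refine mul_le_mul_of_nonneg_left (Real.exp_le_exp.2 ?_) (by norm_num)
        linarith
      exact le_of_mul_le_mul_left h3 hD'
    have h5 := root4 hq0 h2
    refine re_le_norm_mul hD _ (h5.trans ?_)
    refine mul_le_mul_of_nonneg_left (Real.exp_le_exp.2 ?_) (by norm_num)
    nlinarith
  · push Not at hcase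
    by_cases hDn2 : (F.D i : ℝ) ≤ Real.exp (120 * n)
    · -- case c
      have hlog : Real.log (F.D i) ≤ 120 * n := by
        rw [← Real.log_exp (120 * (n : ℝ))]
        exact Real.log_le_log hD' hDn2
      refine ⟨120 * n, by linarith, by nlinarith, hlog, fun w hw hfw => ?_⟩
      have hfl : ⌊c * (n : ℝ)⌋₊ < r := by
        rw [Nat.floor_lt (by positivity)]
        exact hcase
      have hfx : 40 * (fixc w : ℝ) < n := by
        have h0 : (0 : ℝ) ≤ fixc w := Nat.cast_nonneg _
        have h1 : (fixc w : ℝ) * 601 ≤ fixc w * Real.log n := mul_le_mul_of_nonneg_left a2 h0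
        linarith
      have h1 := a1 (dl w) (dl_law w) (fun f hf hf40 => by
        have h2 : mom (dl w) f = ((fixc w).descFactorial f : ℝ) := by
          unfold mom
          exact sum_dl w (fun g => ((fixc g).descFactorial f : ℝ))
        have h3 : (n : ℝ) ≤ 40 * f := by exact_mod_cast hf40
        have h4 : fixc w < f := by
          have : (fixc w : ℝ) < f := by linarith
          exact_mod_cast this
        rw [h2, Nat.descFactorial_eq_zero_iff_lt.2 h4]
        simp) (F.D i) (F.ρ i) (F.irr i).unit (hlt _ hfl)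
      rw [wop_dl] at h1
      refine h1.trans ?_
      rw [mul_comm]
      refine mul_le_mul_of_nonneg_left ?_ hD'.le
      have h2 : Real.exp (-(c₇ * n)) ≤ Real.exp (-(c₄ * (120 * n))) := by
        apply Real.exp_le_exp.2
        have h3 : c₄ * 120 ≤ c₇ := by
          rw [le_div_iff₀ (by norm_num)] at hc47
          exact hc47
        nlinarith
      have h3 := Real.exp_pos (-(c₄ * (120 * (n : ℝ))))
      linarith
    · -- case b
      push Not at hDn2
      have hlog : 120 * (n : ℝ) ≤ Real.log (F.D i) := by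
        rw [← Real.log_exp (120 * (n : ℝ))]
        exact Real.log_le_log (Real.exp_pos _) hDn2.le
      refine ⟨Real.log (F.D i), by linarith, hDn, le_rfl, fun w hw hfw => ?_⟩
      set Λ : ℝ := Real.log (F.D i) with hΛ
      have h1 := (pt hmx hpairb his2 hkey hf1 hit a3 F w hw i).2
      rw [hpow w] at h1
      set q : ℝ := ‖trace (F.ρ i w)‖ / F.D i with hq
      have hq0 : 0 ≤ q := by positivity
      have h2 : q ^ 4 ≤ 2 * Real.exp (-(Λ / 2)) := by
        have h3 : (F.D i : ℝ) * ((F.D i : ℝ) * q ^ 4) ≤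
            (F.D i : ℝ) * ((F.D i : ℝ) * (2 * Real.exp (-(Λ / 2)))) := by
          refine h1.trans ?_
          rw [← Real.exp_add]
          have h4 : (F.D i : ℝ) * ((F.D i : ℝ) * (2 * Real.exp (-(Λ / 2)))) =
              2 * Real.exp (3 * Λ / 2) := by
            rw [← hexpD]
            have : Real.exp Λ * (Real.exp Λ * (2 * Real.exp (-(Λ / 2)))) =
                2 * Real.exp (Λ + (Λ + -(Λ / 2))) := by
              rw [Real.exp_add, Real.exp_add]; ring
            rw [this]; congr 2; ring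
          rw [h4]
          have h5 : Real.exp (30 * n + 2 * (fixc w * Real.log n)) ≤ Real.exp (3 * Λ / 2) :=
            Real.exp_le_exp.2 (by linarith)
          have h6 := Real.exp_pos (3 * Λ / 2)
          linarith
        exact le_of_mul_le_mul_left (le_of_mul_le_mul_left h3 hD') hD'
      have h5 := root4 hq0 h2
      refine re_le_norm_mul hD _ (h5.trans ?_)
      refine mul_le_mul_of_nonneg_left (Real.exp_le_exp.2 ?_) (by norm_num)
      have : 0 ≤ Λ := by linarith
      nlinarith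

end Pool.Agent.Helper3.FS
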