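import Pool.Agent.Helper3.FS.Defs
import Pool.Agent.Helper3.FS.Spec
import Pool.Agent.Helper35.NX.NUM
import Pool.Agent.Helper79.NX.F2
import Pool.Agent.Helper6.NX.PartB
import Pool.Agent.Helper6.GP.LZW

/-! Project FS: the deterministic part of (X') implies the theorem. -/

set_option linter.unusedVariables false

namespace Pool.Agent.Helper3.FS

open Matrix Equiv Filter Topology Pool.Agent.Helper15.An Pool.Agent.Helper6.NX
open scoped ComplexOrder
open Pool.Agent.Helper3.AK (lazyLaw)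

/-- the trace of a law on a representation from the probability of many fixed points -/
theorem trace_le_of {n D : ℕ} (ρ : Perm (Fin n) →* Matrix (Fin D) (Fin D) ℂ)
    (hu : ∀ g, (ρ g)ᴴ * ρ g = 1) (κ : Perm (Fin n) → ℝ) (hκ : IsLaw κ)
    (hs : ∀ g, g ∉ Alt n → κ g = 0) (s : ℕ) (b : ℝ) (hb : 0 ≤ b)
    (h : ∀ w ∈ Alt n, fixc w < s → (trace (ρ w)).re ≤ D * b) :
    (trace (wop ρ κ)).re ≤ D * ((∑ g, κ g * (if s ≤ fixc g then (1 : ℝ) else 0)) + b) := by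
  rw [Pool.Agent.Helper79.NX.re_trace_wop]
  calc ∑ g, κ g * (trace (ρ g)).re ≤
      ∑ g, (D * (κ g * (if s ≤ fixc g then (1 : ℝ) else 0)) + κ g * (D * b)) := by
        refine Finset.sum_le_sum fun g _ => ?_
        by_cases hg : g ∈ Alt n
        · by_cases hf : s ≤ fixc g
          · rw [if_pos hf]
            have h1 : (trace (ρ g)).re ≤ D :=
              ((le_abs_self _).trans (Complex.abs_re_le_norm _)).trans
                (Pool.Agent.Helper79.NX.norm_trace_le hu g)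
            have h2 : 0 ≤ κ g * (D * b) := mul_nonneg (hκ.1 g) (by positivity)
            have h3 : κ g * (trace (ρ g)).re ≤ κ g * D := mul_le_mul_of_nonneg_left h1 (hκ.1 g)
            linarith
          · rw [if_neg hf]
            have h1 := h g hg (by omega)
            have h3 : κ g * (trace (ρ g)).re ≤ κ g * (D * b) :=
              mul_le_mul_of_nonneg_left h1 (hκ.1 g)
            linarith
        · rw [hs g hg]; simp
    _ = D * ((∑ g, κ g * (if s ≤ fixc g then (1 : ℝ) else 0)) + b) := by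
        rw [Finset.sum_add_distrib, ← Finset.mul_sum, ← Finset.sum_mul, hκ.2]
        ring

/-- **the high levels**: the top eigenspaces of the walk of `z` are exponentially small -/
theorem high (hspec : ∃ c₄ : ℝ, 0 < c₄ ∧ c₄ ≤ 1 / 8 ∧ ∀ α : ℝ, 0 < α →
    α < 1 → ∀ᶠ n : ℕ in atTop, ∀ (F : PW (Perm (Fin n))) (i : Fin F.c),
    ¬ HasFix (F.ρ i) (stab n ⌊(n : ℝ) ^ α⌋₊) → ∃ Λ : ℝ, (n : ℝ) ^ α ≤ Λ ∧
      Λ ≤ n * Real.log n ∧ Real.log (F.D i) ≤ Λ ∧ ∀ w ∈ Alt n,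
        8 * (fixc w * Real.log n) ≤ Λ →
        (trace (F.ρ i w)).re ≤ F.D i * (2 * Real.exp (-(c₄ * Λ)))) (hLT : S_LT)
    (k : ℕ) (hk : 1 ≤ k) (β κ C ξ : ℝ) (hβ : β < 1) (hκ : 0 < κ) (hC : 0 < C) (hξ : 0 < ξ) :
    ∃ (α g c₅ : ℝ), 3 / 4 < α ∧ β < α ∧ α < 1 ∧ 0 < g ∧ g ≤ 1 ∧ 0 < c₅ ∧
      ∀ᶠ n : ℕ in atTop, ∀ z : Fin k → Alt n, XP z β κ C ξ →
      ∀ (F : PW (Perm (Fin n))) (i : Fin F.c),
      ¬ HasFix (F.ρ i) (stab n ⌊(n : ℝ) ^ α⌋₊) → ∃ Λ : ℝ, (n : ℝ) ^ α ≤ Λ ∧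
      Real.log (F.D i) ≤ Λ ∧
      (dd F z i g : ℝ) ≤ F.D i * (3 * Real.exp (-(c₅ * Λ))) := by
  obtain ⟨c₄, hc4, hc48, hsp⟩ := hspec
  set α : ℝ := max ((β + 1) / 2) (7 / 8) with hα
  have hα34 : 3 / 4 < α := lt_of_lt_of_le (by norm_num) (le_max_right _ _)
  have hβα : β < α := lt_of_lt_of_le (by linarith) (le_max_left _ _)
  have hα1 : α < 1 := max_lt (by linarith) (by norm_num)
  set c₃ : ℝ := min (1 / 8) κ with hc3
  have hc30 : 0 < c₃ := lt_min (by norm_num) hκ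
  have hc38 : c₃ ≤ 1 / 8 := min_le_left _ _
  have hc3κ : c₃ ≤ κ := min_le_right _ _
  set c₆ : ℝ := min c₄ (ξ * c₃ / 2) with hc6
  have hc60 : 0 < c₆ := lt_min hc4 (by positivity)
  have hc64 : c₆ ≤ c₄ := min_le_left _ _
  have hc6ξ : c₆ ≤ ξ * c₃ / 2 := min_le_right _ _
  set B : ℝ := C * c₃ + 1 with hB
  have hB0 : 0 < B := by positivity
  set g : ℝ := min 1 (c₆ / (4 * B)) with hg
  have hg0 : 0 < g := lt_min one_pos (by positivity)
  have hg1 : g ≤ 1 := min_le_left _ _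
  have hgB : 2 * g * B ≤ c₆ / 2 := by
    have h1 : g ≤ c₆ / (4 * B) := min_le_right _ _
    rw [le_div_iff₀ (by positivity)] at h1
    linarith
  refine ⟨α, g, c₆ / 2, hα34, hβα, hα1, hg0, hg1, by positivity, ?_⟩
  set β' : ℝ := max β 0 with hβ'
  have hβ'α : β' < α := max_lt hβα (by linarith)
  filter_upwards [hsp α (by linarith) hα1,
    Pool.Agent.Helper6.NX.ev_pow_log hβ'α (show (0 : ℝ) < c₃ / 4 by positivity),
    Pool.Agent.Helper6.W.tendsto_log_nat.eventually_ge_atTop 1, eventually_ge_atTop 81]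
    with n a1 a2 a3 a4
  intro z hz F i hi
  have hn1 : (81 : ℝ) ≤ n := by exact_mod_cast a4
  have hn0 : (0 : ℝ) < n := by linarith
  obtain ⟨Λ, hΛα, hΛn, hΛD, hch⟩ := a1 F i hi
  set L : ℝ := Real.log n with hL
  have hL0 : 0 < L := by linarith
  have hβ'1 : (1 : ℝ) ≤ (n : ℝ) ^ β' := Real.one_le_rpow (by linarith) (le_max_right _ _)
  have hββ' : (n : ℝ) ^ β ≤ (n : ℝ) ^ β' :=
    Real.rpow_le_rpow_of_exponent_le (by linarith) (le_max_left _ _)
  have hΛ1 : 1 ≤ Λ := (Real.one_le_rpow (by linarith) (by linarith)).trans hΛα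
  -- the number of tokens
  set s : ℕ := ⌊c₃ * Λ / L⌋₊ with hs
  have hsle : (s : ℝ) ≤ c₃ * Λ / L := Nat.floor_le (by positivity)
  have hslt : c₃ * Λ / L < s + 1 := Nat.lt_floor_add_one _
  have hsL : (s : ℝ) * L ≤ c₃ * Λ := by
    rw [le_div_iff₀ hL0] at hsle
    exact hsle
  have hsL2 : c₃ * Λ ≤ s * L + L := by
    rw [div_lt_iff₀ hL0] at hslt
    linarith
  have hb1 : (n : ℝ) ^ β' * L ≤ c₃ / 4 * Λ := a2.trans (by gcongr)
  have hLΛ : L ≤ c₃ / 4 * Λ := by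
    calc L ≤ (n : ℝ) ^ β' * L := le_mul_of_one_le_left hL0.le hβ'1
      _ ≤ _ := hb1
  have hsβ : (n : ℝ) ^ β ≤ s := by
    have h1 : (n : ℝ) ^ β' * L + L ≤ c₃ * Λ := by nlinarith
    have h2 : (n : ℝ) ^ β' * L ≤ s * L := by linarith
    exact hββ'.trans (le_of_mul_le_mul_right h2 hL0)
  have hsκ : (s : ℝ) ≤ κ * n := by
    refine hsle.trans ?_
    rw [div_le_iff₀ hL0]
    calc c₃ * Λ ≤ c₃ * (n * L) := by gcongr
      _ ≤ κ * (n * L) := by gcongr
      _ = κ * n * L := by ring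
  have hP := hz s hsβ hsκ
  set T : ℕ := ⌈C * s * L⌉₊ with hT
  have hTle : (T : ℝ) ≤ B * Λ := by
    have h1 : (T : ℝ) < C * s * L + 1 := Nat.ceil_lt_add_one (by positivity)
    have h2 : C * s * L ≤ C * (c₃ * Λ) := by
      rw [mul_assoc]; gcongr
    rw [hB]
    nlinarith
  have hPexp : (n : ℝ) ^ (-(ξ * s)) ≤ Real.exp (-(c₆ * Λ)) := by
    rw [Real.rpow_def_of_pos hn0]
    apply Real.exp_le_exp.2
    have h1 : Real.log n * -(ξ * s) = -(ξ * (s * L)) := by rw [← hL]; ring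
    rw [h1]
    have h2 : c₃ * Λ / 2 ≤ s * L := by nlinarith
    have h3 : ξ * (c₃ * Λ / 2) ≤ ξ * (s * L) := mul_le_mul_of_nonneg_left h2 hξ.le
    have h4 : c₆ * Λ ≤ ξ * c₃ / 2 * Λ := mul_le_mul_of_nonneg_right hc6ξ (by linarith)
    nlinarith
  have h4exp : Real.exp (-(c₄ * Λ)) ≤ Real.exp (-(c₆ * Λ)) := by
    apply Real.exp_le_exp.2
    have : c₆ * Λ ≤ c₄ * Λ := mul_le_mul_of_nonneg_right hc64 (by linarith)
    linarith
  have hlz := Pool.Agent.Helper6.GP.lzw_all n k (2 * T) z hk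
  have hκlaw : IsLaw (lazyLaw z (2 * T)) := ⟨hlz.2.2.2.1, hlz.2.2.2.2⟩
  have hκalt : ∀ g : Perm (Fin n), g ∉ Alt n → lazyLaw z (2 * T) g = 0 := hlz.2.1
  have hunit := (F.irr i).unit
  have htr := trace_le_of (F.ρ i) hunit (lazyLaw z (2 * T)) hκlaw hκalt s
    (2 * Real.exp (-(c₄ * Λ))) (by positivity) (fun w hw hfw => by
      refine hch w hw ?_
      have h1 : (fixc w : ℝ) ≤ s := by exact_mod_cast hfw.le
      have h2 : (fixc w : ℝ) * L ≤ s * L := mul_le_mul_of_nonneg_right h1 hL0.le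
      have h3 : 8 * (c₃ * Λ) ≤ Λ := by nlinarith
      linarith)
  have hD' : (0 : ℝ) < F.D i := by exact_mod_cast (F.irr i).pos
  have htr2 : (trace (wop (F.ρ i) (lazyLaw z (2 * T)))).re ≤
      F.D i * (3 * Real.exp (-(c₆ * Λ))) := by
    refine htr.trans (mul_le_mul_of_nonneg_left ?_ hD'.le)
    linarith
  have hHerm : (wop (F.ρ i) (tupW z)).IsHermitian :=
    wop_isHermitian (F.ρ i) hunit (tupW_isSP (by omega) z)
  have h1 := (hLT n k _ T z (F.ρ i) hk hunit).2.2.2 hHerm g hg0.le hg1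
  have h2 : (Fintype.card (TopIdx hHerm (1 - g)) : ℝ) = (dd F z i g : ℝ) := by
    unfold dd
    rw [dif_pos hHerm]
  rw [h2] at h1
  have hu : 1 ≤ (1 - g / 2) * Real.exp g := by
    have h1 : g + 1 ≤ Real.exp g := Real.add_one_le_exp g
    calc (1 : ℝ) ≤ (1 - g / 2) * (g + 1) := by nlinarith
      _ ≤ _ := mul_le_mul_of_nonneg_left h1 (by linarith)
  have h3 : (dd F z i g : ℝ) ≤ (F.D i * (3 * Real.exp (-(c₆ * Λ)))) *
      Real.exp (2 * T * g) := by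
    have h1' : 1 ≤ ((1 - g / 2) * Real.exp g) ^ (2 * T) := one_le_pow₀ hu
    rw [mul_pow, ← Real.exp_nat_mul] at h1'
    push_cast at h1'
    calc (dd F z i g : ℝ) = dd F z i g * 1 := by ring
      _ ≤ dd F z i g * ((1 - g / 2) ^ (2 * T) * Real.exp (2 * T * g)) :=
          mul_le_mul_of_nonneg_left h1' (Nat.cast_nonneg _)
      _ = (dd F z i g * (1 - g / 2) ^ (2 * T)) * Real.exp (2 * T * g) := by ring
      _ ≤ _ := mul_le_mul_of_nonneg_right (h1.trans htr2) (Real.exp_pos _).le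
  refine ⟨Λ, hΛα, hΛD, h3.trans ?_⟩
  rw [mul_assoc, mul_assoc, ← Real.exp_add]
  refine mul_le_mul_of_nonneg_left ?_ hD'.le
  refine mul_le_mul_of_nonneg_left (Real.exp_le_exp.2 ?_) (by norm_num)
  have h5 : 2 * T * g ≤ 2 * g * B * Λ := by
    calc 2 * (T : ℝ) * g ≤ 2 * (B * Λ) * g := by gcongr
      _ = 2 * g * B * Λ := by ring
  have h6 : 2 * g * B * Λ ≤ c₆ / 2 * Λ := mul_le_mul_of_nonneg_right hgB (by linarith)
  linarith

end Pool.Agent.Helper3.FS
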