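import Pool.Agent.Helper3.FS.Det
import Pool.Agent.Helper6.NX.Main

/-! Project FS: the deterministic part of (X') implies the theorem, second half. -/

set_option linter.unusedVariables false

namespace Pool.Agent.Helper3.FS

open Matrix Equiv Filter Topology Pool.Agent.Helper15.An Pool.Agent.Helper6.NX
open scoped ComplexOrder
open Pool.Agent.Helper3.AK (lazyLaw)

/-- numbers: the chain of fresh generators kills the exponentially small eigenspaces -/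
theorem kill {α c₅ : ℝ} (hα : 3 / 4 < α) (hc : 0 < c₅) : ∃ J : ℕ, ∀ᶠ n : ℕ in atTop,
    ∀ (F : PW (Perm (Fin n))) (i : Fin F.c) (Λ : ℝ) (d₀ d : ℕ), (n : ℝ) ^ α ≤ Λ →
    Real.log (F.D i) ≤ Λ → (d₀ : ℝ) ≤ F.D i * (3 * Real.exp (-(c₅ * Λ))) →
    4 * (n : ℝ) * F.c * d ≤ F.D i * (4 * (n : ℝ) * F.c * d₀ / F.D i) ^ (2 ^ J) → d = 0 := by
  obtain ⟨J, hJ⟩ : ∃ J : ℕ, 2 ≤ 2 ^ J * (c₅ / 2) := by
    obtain ⟨N, hN⟩ := exists_nat_ge (2 / (c₅ / 2))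
    refine ⟨N, ?_⟩
    have h1 : (N : ℝ) ≤ 2 ^ N := by exact_mod_cast (Nat.lt_two_pow_self (n := N)).le
    have h2 : 2 / (c₅ / 2) ≤ 2 ^ N := hN.trans h1
    rwa [div_le_iff₀ (by positivity)] at h2
  refine ⟨J, ?_⟩
  have ev1 : ∀ᶠ n : ℕ in atTop, (112 : ℝ) ≤ (n : ℝ) ^ (1 / 8 : ℝ) :=
    ((tendsto_rpow_atTop (by norm_num : (0 : ℝ) < 1 / 8)).comp
      tendsto_natCast_atTop_atTop).eventually_ge_atTop 112
  have ev2 : ∀ᶠ n : ℕ in atTop, (4 / c₅ : ℝ) ≤ (n : ℝ) ^ (α - 3 / 4) :=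
    ((tendsto_rpow_atTop (by linarith)).comp tendsto_natCast_atTop_atTop).eventually_ge_atTop _
  have ev3 : ∀ᶠ n : ℕ in atTop, (2 : ℝ) ≤ (n : ℝ) ^ (3 / 4 : ℝ) :=
    ((tendsto_rpow_atTop (by norm_num : (0 : ℝ) < 3 / 4)).comp
      tendsto_natCast_atTop_atTop).eventually_ge_atTop 2
  filter_upwards [ev1, ev2, ev3, eventually_ge_atTop 1] with n h112 h4 h34 hn
  intro F i Λ d₀ d hΛ hD hd0 hd
  by_contra hdne
  have hd1 : 1 ≤ d := Nat.one_le_iff_ne_zero.2 hdne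
  have hd1' : (1 : ℝ) ≤ d := by exact_mod_cast hd1
  have hn1 : (1 : ℝ) ≤ n := by exact_mod_cast hn
  have hn0 : (0 : ℝ) < n := by linarith
  have hc1 : 1 ≤ F.c := by
    have := i.pos
    omega
  have hc1' : (1 : ℝ) ≤ F.c := by exact_mod_cast hc1
  have hD' : (0 : ℝ) < F.D i := by exact_mod_cast (F.irr i).pos
  have hD1 : (1 : ℝ) ≤ F.D i := by exact_mod_cast (F.irr i).pos
  have hΛ0 : 0 ≤ Λ := (Real.log_nonneg hD1).trans hD
  have hlog : Real.log (4 * (n : ℝ) * F.c) ≤ (n : ℝ) ^ (3 / 4 : ℝ) :=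
    (Pool.Agent.Helper35.NX.num_count hn F hc1).trans (Pool.Agent.Helper35.NX.num_log n hn h112)
  set N : ℝ := 4 * (n : ℝ) * F.c with hN
  have hN4 : 4 ≤ N := by rw [hN]; nlinarith
  have hN0 : 0 < N := by linarith
  have hΛ34 : 2 * (n : ℝ) ^ (3 / 4 : ℝ) ≤ c₅ / 2 * Λ := by
    have h1 : (n : ℝ) ^ α = (n : ℝ) ^ (α - 3 / 4) * (n : ℝ) ^ (3 / 4 : ℝ) := by
      rw [← Real.rpow_add hn0]; congr 1; ring
    have h2 : 4 / c₅ * (n : ℝ) ^ (3 / 4 : ℝ) ≤ Λ := by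
      refine le_trans ?_ hΛ
      rw [h1]
      exact mul_le_mul_of_nonneg_right h4 (by positivity)
    calc 2 * (n : ℝ) ^ (3 / 4 : ℝ) = c₅ / 2 * (4 / c₅ * (n : ℝ) ^ (3 / 4 : ℝ)) := by
          field_simp; ring
      _ ≤ c₅ / 2 * Λ := mul_le_mul_of_nonneg_left h2 (by positivity)
  have h3N : 3 * N ≤ Real.exp (c₅ / 2 * Λ) := by
    have h1 : N ≤ Real.exp ((n : ℝ) ^ (3 / 4 : ℝ)) := by
      rw [← Real.exp_log hN0]
      exact Real.exp_le_exp.2 hlog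
    have h2 : (3 : ℝ) ≤ Real.exp ((n : ℝ) ^ (3 / 4 : ℝ)) := by
      have := Real.add_one_le_exp ((n : ℝ) ^ (3 / 4 : ℝ))
      linarith
    calc 3 * N ≤ Real.exp ((n : ℝ) ^ (3 / 4 : ℝ)) * Real.exp ((n : ℝ) ^ (3 / 4 : ℝ)) :=
          mul_le_mul h2 h1 hN0.le (Real.exp_pos _).le
      _ = Real.exp (2 * (n : ℝ) ^ (3 / 4 : ℝ)) := by rw [← Real.exp_add]; congr 1; ring
      _ ≤ _ := Real.exp_le_exp.2 hΛ34
  have hbase : N * d₀ / F.D i ≤ Real.exp (-(c₅ / 2 * Λ)) := by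
    rw [div_le_iff₀ hD']
    calc N * d₀ ≤ N * (F.D i * (3 * Real.exp (-(c₅ * Λ)))) := mul_le_mul_of_nonneg_left hd0 hN0.le
      _ = (3 * N) * Real.exp (-(c₅ * Λ)) * F.D i := by ring
      _ ≤ Real.exp (c₅ / 2 * Λ) * Real.exp (-(c₅ * Λ)) * F.D i := by gcongr
      _ = Real.exp (-(c₅ / 2 * Λ)) * F.D i := by
          rw [← Real.exp_add]; congr 2; ring
  have hpow : (N * d₀ / F.D i) ^ (2 ^ J) ≤ Real.exp (-(2 * Λ)) := by
    calc (N * d₀ / F.D i) ^ (2 ^ J) ≤ (Real.exp (-(c₅ / 2 * Λ))) ^ (2 ^ J) :=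
          pow_le_pow_left₀ (by positivity) hbase _
      _ = Real.exp (((2 ^ J : ℕ) : ℝ) * (-(c₅ / 2 * Λ))) := by rw [← Real.exp_nat_mul]
      _ ≤ Real.exp (-(2 * Λ)) := by
          apply Real.exp_le_exp.2
          push_cast
          have h1 : 2 * Λ ≤ 2 ^ J * (c₅ / 2) * Λ := mul_le_mul_of_nonneg_right hJ hΛ0
          linarith
  have hDe : (F.D i : ℝ) ≤ Real.exp Λ := by
    rw [← Real.exp_log hD']
    exact Real.exp_le_exp.2 hD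
  have h5 : N * d ≤ 1 := by
    calc N * d ≤ F.D i * (N * d₀ / F.D i) ^ (2 ^ J) := hd
      _ ≤ Real.exp Λ * Real.exp (-(2 * Λ)) :=
          mul_le_mul hDe hpow (by positivity) (Real.exp_pos _).le
      _ = Real.exp (-Λ) := by rw [← Real.exp_add]; congr 1; ring
      _ ≤ 1 := by rw [Real.exp_le_one_iff]; linarith
  nlinarith

/-- the properties of the whole tuple -/
def LowGap {n k : ℕ} (x : Fin k → Alt n) (α ε : ℝ) : Prop :=
  ∀ r : ℕ, (r : ℝ) ≤ (n : ℝ) ^ α → Pool.Agent.Helper3.AK.TupleGap x r ε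

/-- **the deterministic part** -/
theorem det (hspec : ∃ c₄ : ℝ, 0 < c₄ ∧ c₄ ≤ 1 / 8 ∧ ∀ α : ℝ, 0 < α →
    α < 1 → ∀ᶠ n : ℕ in atTop, ∀ (F : PW (Perm (Fin n))) (i : Fin F.c),
    ¬ HasFix (F.ρ i) (stab n ⌊(n : ℝ) ^ α⌋₊) → ∃ Λ : ℝ, (n : ℝ) ^ α ≤ Λ ∧
      Λ ≤ n * Real.log n ∧ Real.log (F.D i) ≤ Λ ∧ ∀ w ∈ Alt n,
        8 * (fixc w * Real.log n) ≤ Λ →
        (trace (F.ρ i w)).re ≤ F.D i * (2 * Real.exp (-(c₄ * Λ)))) (hLT : S_LT)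
    (hTOPZ : S_TOPZ) (hSUBT : S_SUBT)
    (k : ℕ) (hk : 1 ≤ k) (β κ C ξ : ℝ) (hβ : β < 1) (hκ : 0 < κ) (hC : 0 < C) (hξ : 0 < ξ) :
    ∃ (α g : ℝ) (J : ℕ), α < 1 ∧ 0 < g ∧ g ≤ 1 ∧ ∀ (m : ℕ) (ε : ℝ), 0 < ε → ∃ ε' : ℝ, 0 < ε' ∧
      ∀ᶠ n : ℕ in atTop, ∀ x : Fin (k + J + m) → Alt n, LowGap x α ε →
      XP (fun i : Fin k => x (Fin.castAdd m (Fin.castAdd J i))) β κ C ξ →
      QZ g (fun i : Fin k => x (Fin.castAdd m (Fin.castAdd J i)))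
        (fun i : Fin J => x (Fin.castAdd m (Fin.natAdd k i))) →
      Good (pwn n) (tupW x) n ε' := by
  obtain ⟨α, g, c₅, hα34, hβα, hα1, hg0, hg1, hc5, hhigh⟩ :=
    high hspec hLT k hk β κ C ξ hβ hκ hC hξ
  obtain ⟨J, hJ⟩ := kill hα34 hc5
  refine ⟨α, g, J, hα1, hg0, hg1, fun m ε hε => ?_⟩
  set R : ℝ := (256 * ((k : ℝ) + J)) ^ J with hR
  have hkr : (0 : ℝ) < k := by exact_mod_cast hk
  have hR0 : 0 < R := by rw [hR]; positivity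
  set g' : ℝ := ((k + J : ℕ) : ℝ) / ((k + J + m : ℕ) : ℝ) * (g / R) with hg'
  have hg'0 : 0 < g' := by rw [hg']; push_cast; positivity
  refine ⟨min ε g', lt_min hε hg'0, ?_⟩
  filter_upwards [hhigh, hJ, Pool.Agent.Helper3.AK.ev_add_two_le hα1, eventually_ge_atTop 2]
    with n a1 a2 a3 hn2
  intro x hlow hxp hqz i htriv _
  have hn1 : (1 : ℝ) ≤ n := by
    have : 1 ≤ n := by omega
    exact_mod_cast this
  have hunit := ((pwn n).irr i).unit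
  by_cases hfix : HasFix ((pwn n).ρ i) (stab n ⌊(n : ℝ) ^ α⌋₊)
  · have hm1 : ((⌊(n : ℝ) ^ α⌋₊ : ℕ) : ℝ) ≤ (n : ℝ) ^ α := Nat.floor_le (by positivity)
    have h1 := Pool.Agent.Helper56.GP.TGR.thm n (k + J + m) ⌊(n : ℝ) ^ α⌋₊ _ x ε (by omega)
      (a3 _ hm1) (hlow _ hm1) ((pwn n).ρ i) ((pwn n).irr i) htriv hfix
    exact psd_mono (min_le_left _ _) h1
  · set z : Fin k → Alt n := fun i : Fin k => x (Fin.castAdd m (Fin.castAdd J i)) with hz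
    set y : Fin J → Alt n := fun i : Fin J => x (Fin.castAdd m (Fin.natAdd k i)) with hy
    obtain ⟨Λ, hΛα, hΛD, hdd⟩ := a1 z hxp (pwn n) i hfix
    have h4 := a2 (pwn n) i Λ _ _ hΛα hΛD hdd (hqz i)
    have h5 := hTOPZ n (k + J) (Fin.append z y) (pwn n) i _ (by omega) h4
    have hxe : (fun j => x (Fin.castLE (show k + J ≤ k + J + m by omega) j)) =
        Fin.append z y := by
      funext j
      refine Fin.addCases (fun l => ?_) (fun l => ?_) j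
      · rw [Fin.append_left]; rfl
      · rw [Fin.append_right]; rfl
    have h6 := hSUBT n (k + J) (k + J + m) _ (by omega) x ((pwn n).ρ i) _ (by omega) hunit (by
      rw [hxe]; exact h5)
    exact psd_mono (min_le_right _ _) h6

end Pool.Agent.Helper3.FS
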