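import Pool.Agent.Helper3.FS.Det2

/-! Project FS: (X') implies the theorem. -/

set_option linter.unusedVariables false

namespace Pool.Agent.Helper3.FS

open Matrix Equiv Filter Topology Pool.Agent.Helper15.An Pool.Agent.Helper6.NX
open scoped ComplexOrder
open Pool.Agent.Helper3.AK (lazyLaw)

/-- two events of probability close to one -/
theorem inter_frac {X : Type} [Fintype X] [Nonempty X] (P Q R : X → Prop)
    (h : ∀ x, P x → Q x → R x) :
    (Nat.card {x // P x} : ℝ) / Nat.card X + (Nat.card {x // Q x} : ℝ) / Nat.card X - 1 ≤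
      (Nat.card {x // R x} : ℝ) / Nat.card X := by
  classical
  have hN : (0 : ℝ) < Nat.card X := by exact_mod_cast Nat.card_pos
  rw [← add_div, ← div_self hN.ne', ← sub_div]
  refine div_le_div_of_nonneg_right ?_ hN.le
  rw [Nat.card_eq_fintype_card, Nat.card_eq_fintype_card, Nat.card_eq_fintype_card,
    Nat.card_eq_fintype_card, Fintype.card_subtype, Fintype.card_subtype, Fintype.card_subtype]
  have h1 := Finset.card_union_add_card_inter (Finset.univ.filter P) (Finset.univ.filter Q)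
  have h2 : (Finset.univ.filter P ∩ Finset.univ.filter Q) ⊆ Finset.univ.filter R := by
    intro x hx
    simp only [Finset.mem_inter, Finset.mem_filter, Finset.mem_univ, true_and] at hx ⊢
    exact h x hx.1 hx.2
  have h3 := Finset.card_le_card h2
  have h4 : (Finset.univ.filter P ∪ Finset.univ.filter Q).card ≤ Fintype.card X :=
    Finset.card_le_univ _
  have h5 : (Finset.univ.filter P).card + (Finset.univ.filter Q).card ≤
      Fintype.card X + (Finset.univ.filter R).card := by omega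
  have h6 : ((Finset.univ.filter P).card : ℝ) + (Finset.univ.filter Q).card ≤
      Fintype.card X + (Finset.univ.filter R).card := by exact_mod_cast h5
  linarith

theorem end_of_xp (hspec : ∃ c₄ : ℝ, 0 < c₄ ∧ c₄ ≤ 1 / 8 ∧ ∀ α : ℝ, 0 < α →
    α < 1 → ∀ᶠ n : ℕ in atTop, ∀ (F : PW (Perm (Fin n))) (i : Fin F.c),
    ¬ HasFix (F.ρ i) (stab n ⌊(n : ℝ) ^ α⌋₊) → ∃ Λ : ℝ, (n : ℝ) ^ α ≤ Λ ∧
      Λ ≤ n * Real.log n ∧ Real.log (F.D i) ≤ Λ ∧ ∀ w ∈ Alt n,
        8 * (fixc w * Real.log n) ≤ Λ →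
        (trace (F.ρ i w)).re ≤ F.D i * (2 * Real.exp (-(c₄ * Λ)))) (hLT : S_LT)
    (hTOPZ : S_TOPZ) (hSUBT : S_SUBT) (hCHN : S_CHN) (hXP : S_XP) : S_END := by
  obtain ⟨k, β, κ, C, ξ, hk, hβ, hκ, hC, hξ, hlimX⟩ := hXP
  obtain ⟨α, g, J, hα1, hg0, hg1, hdet⟩ :=
    det hspec hLT hTOPZ hSUBT k hk β κ C ξ hβ hκ hC hξ
  obtain ⟨ε, hε, hsu⟩ := Pool.Agent.Helper6.GP.small_uniform
    Pool.Agent.Helper6.GP.lzw_all α hα1
  -- enough generators for the low levels
  obtain ⟨K₁, hK₁⟩ : ∃ K₁ : ℕ, ∀ j : ℕ, K₁ ≤ j → ((1 : ℝ) / 2) ^ j < 1 - α := by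
    have hlim1 : Tendsto (fun k : ℕ => ((1 : ℝ) / 2) ^ k) atTop (𝓝 0) :=
      tendsto_pow_atTop_nhds_zero_of_lt_one (by norm_num) (by norm_num)
    exact eventually_atTop.1 (hlim1.eventually_lt_const (show (0 : ℝ) < 1 - α by linarith))
  refine ⟨k + J + K₁ + 2, by omega, fun k' hk' => ?_⟩
  obtain ⟨m, hm⟩ := Nat.exists_eq_add_of_le (show k + J ≤ k' by omega)
  subst hm
  have heus := hsu (k + J + m) (by omega) (by
    have h1 := hK₁ (k + J + m - 2) (by omega)
    have h2 : (2 : ℝ) / 3 / 2 ^ (k + J + m - 2) = 2 / 3 * ((1 : ℝ) / 2) ^ (k + J + m - 2) := by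
      rw [one_div, inv_pow]; ring
    rw [h2]
    have : 0 < ((1 : ℝ) / 2) ^ (k + J + m - 2) := by positivity
    linarith)
  obtain ⟨ε', hε', hev⟩ := hdet m ε hε
  refine ⟨ε', hε', ?_⟩
  have hlim : Tendsto (fun n : ℕ => (Nat.card {x : Fin (k + J + m) → Alt n //
      (∀ r : ℕ, (r : ℝ) ≤ (n : ℝ) ^ α → Pool.Agent.Helper3.AK.GroupGap x r ε ∧
        Pool.Agent.Helper3.AK.TupleGap x r ε) ∧
        Pool.Agent.Helper6.GP.SmallSupp x (Real.exp ((n : ℝ) ^ α)) ε} : ℝ) /
      Nat.card (Fin (k + J + m) → Alt n) + ((Nat.card {z : Fin k → Alt n // XP z β κ C ξ} : ℝ) /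
      Nat.card (Fin k → Alt n) - (J : ℝ) / n) - 1) atTop (𝓝 (1 + (1 - 0) - 1)) := by
    refine (Tendsto.add heus (Tendsto.sub hlimX ?_)).sub_const 1
    exact tendsto_const_div_atTop_nhds_zero_nat (J : ℝ)
  rw [show (1 : ℝ) + (1 - 0) - 1 = 1 by norm_num] at hlim
  refine tendsto_of_tendsto_of_tendsto_of_le_of_le' hlim tendsto_const_nhds ?_ ?_
  · filter_upwards [hev, eventually_ge_atTop 2] with n a1 hn2
    have hn0 : (0 : ℝ) < n := by
      have : 0 < n := by omega
      exact_mod_cast this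
    have h1 := frac_blocks (A := Alt n) k J m Fintype.card_pos (fun z => XP z β κ C ξ)
      (fun z y => QZ g z y) ((J : ℝ) / n) (by positivity) (fun z _ => by
        have h2 := hCHN n k J z (pwn n) g hk hn2 hg0 hg1
        have h3 : (Nat.card {y : Fin J → Alt n // ¬ QZ g z y} : ℝ) =
            (Nat.card {y : Fin J → Alt n // ∃ i, ((pwn n).D i : ℝ) *
              (4 * (n : ℝ) * (pwn n).c * (dd (pwn n) z i g : ℝ) /
                (pwn n).D i) ^ (2 ^ J) < 4 * (n : ℝ) * (pwn n).c *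
              (dd (pwn n) (Fin.append z y) i (g / (256 * ((k : ℝ) + J)) ^ J) : ℝ)} : ℝ) := by
          congr 1
          refine Nat.card_congr (Equiv.subtypeEquivRight fun y => ?_)
          unfold QZ
          push Not
          rfl
        rw [h3, div_mul_eq_mul_div, le_div_iff₀ hn0]
        exact h2)
    have h4 := inter_frac (X := Fin (k + J + m) → Alt n)
      (fun x => (∀ r : ℕ, (r : ℝ) ≤ (n : ℝ) ^ α → Pool.Agent.Helper3.AK.GroupGap x r ε ∧
        Pool.Agent.Helper3.AK.TupleGap x r ε) ∧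
        Pool.Agent.Helper6.GP.SmallSupp x (Real.exp ((n : ℝ) ^ α)) ε)
      (fun x => XP (fun i => x (Fin.castAdd m (Fin.castAdd J i))) β κ C ξ ∧
        QZ g (fun i => x (Fin.castAdd m (Fin.castAdd J i)))
        (fun i => x (Fin.castAdd m (Fin.natAdd k i))))
      (fun x => Good (pwn n) (tupW x) n ε')
      (fun x hP hQ => a1 x (fun r hr => (hP.1 r hr).2) hQ.1 hQ.2)
    linarith
  · filter_upwards with n
    apply div_le_one_of_le₀ _ (Nat.cast_nonneg _)
    exact_mod_cast Nat.card_le_card_of_injective _ Subtype.val_injective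

end Pool.Agent.Helper3.FS
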