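import Pool.Agent.Helper6.NX.GoalsE
import Pool.Agent.Helper76.NX.E2

/-! Project FS: a bound for the character of one permutation with few fixed points. -/

set_option linter.unusedVariables false

namespace Pool.Agent.Helper3.FS

open Matrix Equiv Filter Topology Pool.Agent.Helper15.An Pool.Agent.Helper6.NX
open scoped ComplexOrder

variable {n : ℕ}

/-- the law concentrated at `w` -/
def dl (w : Perm (Fin n)) : Perm (Fin n) → ℝ := fun g => if g = w then 1 else 0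

theorem dl_law (w : Perm (Fin n)) : IsLaw (dl w) := by
  refine ⟨fun g => ?_, ?_⟩
  · unfold dl; split_ifs <;> norm_num
  · simp [dl]

theorem sum_dl (w : Perm (Fin n)) (φ : Perm (Fin n) → ℝ) : ∑ g, dl w g * φ g = φ w := by
  simp [dl]

theorem wop_dl {D : ℕ} (ρ : Perm (Fin n) →* Matrix (Fin D) (Fin D) ℂ) (w : Perm (Fin n)) :
    wop ρ (dl w) = ρ w := by
  unfold wop dl
  rw [Finset.sum_eq_single w]
  · simp
  · intro g _ hg
    simp [hg]
  · intro h
    exact absurd (Finset.mem_univ _) h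

theorem fixc_inv (w : Perm (Fin n)) : fixc w⁻¹ = fixc w := by
  unfold fixc
  congr 1
  ext p
  simp only [Finset.mem_filter, Finset.mem_univ, true_and]
  exact ⟨fun h => (Perm.inv_eq_iff_eq.1 h).symm, fun h => Perm.inv_eq_iff_eq.2 h.symm⟩

/-- the commutator law `w y w⁻¹ y⁻¹` -/
noncomputable def cml (w : Perm (Fin n)) : Perm (Fin n) → ℝ := mixc (dl w) (dl w⁻¹)

theorem col_cml (hmx : S_MX) (hkey : S_KEY) (hn : 81 ≤ n) (w : Perm (Fin n)) (s : ℕ)
    (hs : 1 ≤ s) (hsn : s ≤ n) :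
    ∑ V, cml w V * colc ⌈√(s : ℝ)⌉₊ s V ≤ Real.exp (12 * s) * (n : ℝ) ^ (fixc w) := by
  obtain ⟨hx1, hx2, hx3⟩ := Pool.Agent.Helper76.NX.E2.xs s hs
  obtain ⟨ht1, ht2⟩ := Pool.Agent.Helper76.NX.E2.tbound n s hs hsn
  set x := ⌈√(s : ℝ)⌉₊ with hx
  set t := √((x : ℝ) * s / n) with ht
  have ht0 : 0 ≤ t := Real.sqrt_nonneg _
  have hn1 : (81 : ℝ) ≤ n := by exact_mod_cast hn
  have hn0 : (0 : ℝ) < n := by linarith
  unfold cml
  rw [(hmx n (dl w) (dl w⁻¹) (dl_law w) (dl_law w⁻¹)).2.2.2.2]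
  have h1 : ∀ φ : Perm (Fin n) → Perm (Fin n) → ℝ,
      ∑ g, ∑ h, dl w g * dl w⁻¹ h * φ g h = φ w w⁻¹ := by
    intro φ
    calc ∑ g, ∑ h, dl w g * dl w⁻¹ h * φ g h = ∑ g, dl w g * ∑ h, dl w⁻¹ h * φ g h := by
          refine Finset.sum_congr rfl fun g _ => ?_
          rw [Finset.mul_sum]
          exact Finset.sum_congr rfl fun h _ => by ring
      _ = ∑ g, dl w g * φ g w⁻¹ := by
          refine Finset.sum_congr rfl fun g _ => ?_
          rw [sum_dl]
      _ = φ w w⁻¹ := sum_dl w (fun g => φ g w⁻¹)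
  rw [h1 (fun g h => (n.factorial : ℝ)⁻¹ * ∑ y : Perm (Fin n), colc x s (g * (y * h * y⁻¹)))]
  refine (hkey n x s w w⁻¹ hs hsn hx2).trans ?_
  refine mul_le_mul_of_nonneg_left ?_ (Real.exp_pos _).le
  rw [fixc_inv, ← two_mul, pow_mul]
  refine pow_le_pow_left₀ (by positivity) ?_ _
  -- (1 + t)^2 ≤ n
  have h2 : (n : ℝ) ^ (1 / 4 : ℝ) * (n : ℝ) ^ (1 / 4 : ℝ) = √(n : ℝ) := by
    rw [← Real.rpow_add hn0, Real.sqrt_eq_rpow]; norm_num
  have h3 : (1 : ℝ) ≤ (n : ℝ) ^ (1 / 4 : ℝ) := Real.one_le_rpow (by linarith) (by norm_num)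
  have h4 : (9 : ℝ) ≤ √(n : ℝ) := by
    rw [show (9 : ℝ) = √81 by
      rw [show (81 : ℝ) = 9 ^ 2 by norm_num, Real.sqrt_sq (by norm_num)]]
    exact Real.sqrt_le_sqrt hn1
  have h5 : √(n : ℝ) * √(n : ℝ) = n := Real.mul_self_sqrt hn0.le
  calc (1 + t) ^ 2 ≤ (3 * (n : ℝ) ^ (1 / 4 : ℝ)) ^ 2 :=
        pow_le_pow_left₀ (by positivity) (by linarith) 2
    _ = 9 * √(n : ℝ) := by rw [← h2]; ring
    _ ≤ √(n : ℝ) * √(n : ℝ) := mul_le_mul_of_nonneg_right h4 (Real.sqrt_nonneg _)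
    _ = n := h5

theorem mom_cml (hmx : S_MX) (hpairb : S_PAIRB) (his2 : S_IS2) (hkey : S_KEY) (hn : 81 ≤ n)
    (w : Perm (Fin n)) (f : ℕ) (hf : 1 ≤ f) (hfn : f ≤ n) :
    mom (mixc (cml w) (cml w)) f ≤ Real.exp (30 * f) * (n : ℝ) ^ (2 * fixc w) := by
  have hκ2 : IsLaw (cml w) := (hmx n _ _ (dl_law w) (dl_law w⁻¹)).1
  set κ₂ := cml w with hκ₂
  have hn1 : (81 : ℝ) ≤ n := by exact_mod_cast hn
  have hnpos : (0 : ℝ) < n := by linarith
  have hfn1 : (f : ℝ) ≤ n := by exact_mod_cast hfn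
  have hfr : (f : ℝ) / n ≤ 1 := (div_le_one hnpos).2 hfn1
  have hfr0 : 0 ≤ (f : ℝ) / n := by positivity
  set M : ℝ := (n : ℝ) ^ (2 * fixc w) with hM
  have hM1 : 1 ≤ M := one_le_pow₀ (by linarith)
  unfold mom
  rw [(hmx n κ₂ κ₂ hκ2 hκ2).2.2.2.2]
  have hII : ∀ s ∈ Finset.range (f + 1), 1 ≤ s →
      ∑ V, ∑ V', κ₂ V * κ₂ V' * II s V V' ≤ Real.exp (24 * f) * M := by
    intro s hs hs1
    have hsf : s ≤ f := by simpa using Nat.lt_succ_iff.1 (Finset.mem_range.1 hs)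
    obtain ⟨hx1, hx2, hx3⟩ := Pool.Agent.Helper76.NX.E2.xs s hs1
    have hA := col_cml hmx hkey hn w s hs1 (hsf.trans hfn)
    rw [← hκ₂] at hA
    set x := ⌈√(s : ℝ)⌉₊ with hx
    have hA0 : 0 ≤ ∑ V, κ₂ V * colc x s V :=
      Finset.sum_nonneg fun V _ => mul_nonneg (hκ2.1 V) (Pool.Agent.Helper76.NX.E2.colc_nonneg _ _ _)
    calc ∑ V, ∑ V', κ₂ V * κ₂ V' * II s V V'
        ≤ ∑ V, ∑ V', κ₂ V * κ₂ V' * (colc x s V * colc x s V') :=
          Finset.sum_le_sum fun V _ => Finset.sum_le_sum fun V' _ =>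
            mul_le_mul_of_nonneg_left (his2 n s x V V' hx1) (mul_nonneg (hκ2.1 V) (hκ2.1 V'))
      _ = (∑ V, κ₂ V * colc x s V) * (∑ V, κ₂ V * colc x s V) :=
          Pool.Agent.Helper76.NX.E2.sum_sq κ₂ _ _
      _ ≤ (Real.exp (12 * s) * (n : ℝ) ^ (fixc w)) * (Real.exp (12 * s) * (n : ℝ) ^ (fixc w)) :=
          mul_le_mul hA hA hA0 (by positivity)
      _ = Real.exp (24 * s) * M := by
          have : Real.exp (24 * (s : ℝ)) = Real.exp (12 * s) * Real.exp (12 * s) := by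
            rw [← Real.exp_add]; congr 1; ring
          rw [this, hM, two_mul, pow_add]; ring
      _ ≤ Real.exp (24 * f) * M := by
          have : (s : ℝ) ≤ f := by exact_mod_cast hsf
          refine mul_le_mul_of_nonneg_right (Real.exp_le_exp.2 (by linarith)) (by linarith)
  have hII0 : ∑ V, ∑ V', κ₂ V * κ₂ V' * II 0 V V' ≤ 1 := by
    calc ∑ V, ∑ V', κ₂ V * κ₂ V' * II 0 V V' ≤ ∑ V, ∑ V', κ₂ V * κ₂ V' * (1 * 1) := by
          refine Finset.sum_le_sum fun V _ => Finset.sum_le_sum fun V' _ =>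
            mul_le_mul_of_nonneg_left ?_ (mul_nonneg (hκ2.1 V) (hκ2.1 V'))
          refine (his2 n 0 0 V V' (by norm_num)).trans ?_
          exact mul_le_mul (Pool.Agent.Helper76.NX.E2.colc_zero V)
            (Pool.Agent.Helper76.NX.E2.colc_zero V')
            (Pool.Agent.Helper76.NX.E2.colc_nonneg _ _ _) (by norm_num)
      _ = (∑ V, κ₂ V * 1) * (∑ V', κ₂ V' * 1) :=
          Pool.Agent.Helper76.NX.E2.sum_sq κ₂ (fun _ => 1) (fun _ => 1)
      _ = 1 := by simp [hκ2.2]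
  calc ∑ V, ∑ V', κ₂ V * κ₂ V' * ((n.factorial : ℝ)⁻¹ *
        ∑ y : Perm (Fin n), ((fixc (V * (y * V' * y⁻¹))).descFactorial f : ℝ))
      ≤ ∑ V, ∑ V', κ₂ V * κ₂ V' * (Real.exp (2 * f) *
          ∑ s ∈ Finset.range (f + 1), ((f : ℝ) / n) ^ s * II s V V') :=
        Finset.sum_le_sum fun V _ => Finset.sum_le_sum fun V' _ =>
          mul_le_mul_of_nonneg_left (hpairb n f V V' hfn) (mul_nonneg (hκ2.1 V) (hκ2.1 V'))
    _ = Real.exp (2 * f) * ∑ s ∈ Finset.range (f + 1), ((f : ℝ) / n) ^ s *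
          ∑ V, ∑ V', κ₂ V * κ₂ V' * II s V V' := by
        have e1 : ∀ V V' : Perm (Fin n), κ₂ V * κ₂ V' * (Real.exp (2 * f) *
            ∑ s ∈ Finset.range (f + 1), ((f : ℝ) / n) ^ s * II s V V') =
            ∑ s ∈ Finset.range (f + 1), Real.exp (2 * f) * (((f : ℝ) / n) ^ s *
              (κ₂ V * κ₂ V' * II s V V')) := by
          intro V V'
          rw [Finset.mul_sum, Finset.mul_sum]
          exact Finset.sum_congr rfl fun s _ => by ring
        simp_rw [e1]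
        rw [Finset.mul_sum]
        have e2 : ∀ V : Perm (Fin n), ∑ V', ∑ s ∈ Finset.range (f + 1), Real.exp (2 * f) *
            (((f : ℝ) / n) ^ s * (κ₂ V * κ₂ V' * II s V V')) =
            ∑ s ∈ Finset.range (f + 1), ∑ V', Real.exp (2 * f) *
            (((f : ℝ) / n) ^ s * (κ₂ V * κ₂ V' * II s V V')) := fun V => Finset.sum_comm
        simp_rw [e2]
        rw [Finset.sum_comm]
        refine Finset.sum_congr rfl fun s _ => ?_
        simp_rw [Finset.mul_sum]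
    _ ≤ Real.exp (2 * f) * (1 + f * (Real.exp (24 * f) * M)) := by
        refine mul_le_mul_of_nonneg_left ?_ (Real.exp_pos _).le
        rw [Finset.sum_range_succ']
        rw [add_comm]
        refine add_le_add ?_ ?_
        · simpa using hII0
        · calc ∑ k ∈ Finset.range f, ((f : ℝ) / n) ^ (k + 1) *
                ∑ V, ∑ V', κ₂ V * κ₂ V' * II (k + 1) V V'
              ≤ ∑ k ∈ Finset.range f, Real.exp (24 * f) * M := by
                refine Finset.sum_le_sum fun k hk => ?_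
                have hk' : k + 1 ∈ Finset.range (f + 1) := by
                  rw [Finset.mem_range] at hk ⊢; omega
                have h3 := hII (k + 1) hk' (by omega)
                have h4 : 0 ≤ ∑ V, ∑ V', κ₂ V * κ₂ V' * II (k + 1) V V' :=
                  Finset.sum_nonneg fun V _ => Finset.sum_nonneg fun V' _ =>
                    mul_nonneg (mul_nonneg (hκ2.1 V) (hκ2.1 V'))
                      (Pool.Agent.Helper76.NX.E2.II_nonneg _ _ _)
                calc ((f : ℝ) / n) ^ (k + 1) * ∑ V, ∑ V', κ₂ V * κ₂ V' * II (k + 1) V V'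
                    ≤ 1 * ∑ V, ∑ V', κ₂ V * κ₂ V' * II (k + 1) V V' :=
                      mul_le_mul_of_nonneg_right (pow_le_one₀ hfr0 hfr) h4
                  _ = ∑ V, ∑ V', κ₂ V * κ₂ V' * II (k + 1) V V' := one_mul _
                  _ ≤ _ := h3
            _ = f * (Real.exp (24 * f) * M) := by
                rw [Finset.sum_const, Finset.card_range, nsmul_eq_mul]
    _ ≤ Real.exp (30 * f) * M := by
        have hf1 : (1 : ℝ) ≤ f := by exact_mod_cast hf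
        have h1 : (1 : ℝ) ≤ Real.exp (24 * f) := Real.one_le_exp (by positivity)
        have h2 : (1 : ℝ) + f ≤ Real.exp (4 * f) := by
          have := Real.add_one_le_exp (4 * (f : ℝ))
          linarith
        have h3 : (1 : ℝ) ≤ Real.exp (24 * f) * M := one_le_mul_of_one_le_of_one_le h1 hM1
        calc Real.exp (2 * f) * (1 + f * (Real.exp (24 * f) * M))
            ≤ Real.exp (2 * f) * ((1 + f) * (Real.exp (24 * f) * M)) := by
              refine mul_le_mul_of_nonneg_left ?_ (Real.exp_pos _).le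
              nlinarith
          _ ≤ Real.exp (2 * f) * (Real.exp (4 * f) * (Real.exp (24 * f) * M)) := by
              refine mul_le_mul_of_nonneg_left ?_ (Real.exp_pos _).le
              exact mul_le_mul_of_nonneg_right h2 (by positivity)
          _ = Real.exp (30 * f) * M := by
              rw [← mul_assoc, ← mul_assoc, ← Real.exp_add, ← Real.exp_add]
              congr 2; ring

/-- the trace of the commutator law -/
theorem trace_cml (hmx : S_MX) {D : ℕ} (ρ : Perm (Fin n) →* Matrix (Fin D) (Fin D) ℂ)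
    (hρ : IsIrr ρ) (w : Perm (Fin n)) :
    trace (wop ρ (cml w)) = ((‖trace (ρ w)‖ ^ 2 / D : ℝ) : ℂ) := by
  have h1 : ρ w⁻¹ = (ρ w)ᴴ := by
    have h2 : ρ w⁻¹ * ρ w = 1 := by rw [← map_mul]; simp
    have h3 := hρ.unit w
    calc ρ w⁻¹ = ρ w⁻¹ * (ρ w * (ρ w)ᴴ) := by
          rw [mul_eq_one_comm.1 h3, mul_one]
      _ = (ρ w)ᴴ := by rw [← mul_assoc, h2, one_mul]
  unfold cml
  rw [(hmx n (dl w) (dl w⁻¹) (dl_law w) (dl_law w⁻¹)).2.2.2.1 D ρ hρ, wop_dl, wop_dl, h1,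
    trace_smul, trace_conjTranspose, smul_eq_mul]
  have h4 : star (trace (ρ w)) * trace (ρ w) = ((‖trace (ρ w)‖ ^ 2 : ℝ) : ℂ) := by
    rw [Complex.star_def, ← Complex.normSq_eq_conj_mul_self, Complex.normSq_eq_norm_sq]
  rw [div_mul_eq_mul_div, h4]
  push_cast
  rfl

/-- **the character of one even permutation** -/
theorem pt (hmx : S_MX) (hpairb : S_PAIRB) (his2 : S_IS2) (hkey : S_KEY) (hf1 : S_F1)
    (hit : S_IT) (hn : 81 ≤ n) (F : PW (Perm (Fin n))) (w : Perm (Fin n)) (hw : w ∈ Alt n)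
    (i : Fin F.c) :
    (∀ f, 1 ≤ f → f ≤ n → HasFix (F.ρ i) (stab n f) →
      (F.D i : ℝ) * (‖trace (F.ρ i w)‖ / F.D i) ^ 4 ≤
        2 * (Real.exp (30 * f) * (n : ℝ) ^ (2 * fixc w))) ∧
    (F.D i : ℝ) * ((F.D i : ℝ) * (‖trace (F.ρ i w)‖ / F.D i) ^ 4) ≤
      Real.exp (30 * n) * (n : ℝ) ^ (2 * fixc w) := by
  have hw' : w⁻¹ ∈ Alt n := (Alt n).inv_mem hw
  have hsup : ∀ u : Perm (Fin n), u ∈ Alt n → ∀ g, g ∉ Alt n → dl u g = 0 := by
    intro u hu g hg
    unfold dl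
    rw [if_neg]
    rintro rfl
    exact hg hu
  have hκ2 : IsLaw (cml w) := (hmx n _ _ (dl_law w) (dl_law w⁻¹)).1
  have hs2 : ∀ g, g ∉ Alt n → cml w g = 0 :=
    (hmx n _ _ (dl_law w) (dl_law w⁻¹)).2.1 (hsup w hw) (hsup _ hw')
  have hκ3 : IsLaw (mixc (cml w) (cml w)) := (hmx n _ _ hκ2 hκ2).1
  have hs3 : ∀ g, g ∉ Alt n → mixc (cml w) (cml w) g = 0 := (hmx n _ _ hκ2 hκ2).2.1 hs2 hs2
  have hitm : itm (cml w) 1 = mixc (cml w) (cml w) := rfl
  have htr : ∀ j : Fin F.c, (trace (wop (F.ρ j) (mixc (cml w) (cml w)))).re =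
      F.D j * (‖trace (F.ρ j w)‖ / F.D j) ^ 4 := by
    intro j
    have h1 := trace_cml hmx (F.ρ j) (F.irr j) w
    have h2 := hit n (F.D j) 1 (F.ρ j) (cml w) (F.irr j) hκ2 (by rw [h1, Complex.ofReal_re])
    rw [hitm, h1] at h2
    rw [h2, Complex.ofReal_re]
    have hD : (0 : ℝ) < F.D j := by exact_mod_cast (F.irr j).pos
    congr 1
    norm_num
    field_simp
  have hpos : ∀ j : Fin F.c, 0 ≤ (trace (wop (F.ρ j) (mixc (cml w) (cml w)))).re := by
    intro j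
    rw [htr j]
    positivity
  obtain ⟨hA, hB⟩ := hf1 n F (mixc (cml w) (cml w)) hκ3 hs3 hpos
  constructor
  · intro f hf hfn hfix
    have h1 := hA f hfn i hfix
    rw [htr i] at h1
    have h2 := mom_cml hmx hpairb his2 hkey hn w f hf hfn
    linarith
  · have h1 := hB i
    rw [htr i] at h1
    have h2 := mom_cml hmx hpairb his2 hkey hn w n (by omega) le_rfl
    exact h1.trans h2

end Pool.Agent.Helper3.FS
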